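import Pool.Agent.WAF.St
import Mathlib.LinearAlgebra.Lagrange

/-!
# Module MUL: multisets with equal power sums are equal
-/

open Polynomial

namespace Pool.Agent.WAF

noncomputable section

namespace MUL

theorem sum_eval (s t : Multiset ℂ)
    (h : ∀ n : ℕ, (s.map (fun z => z ^ n)).sum = (t.map (fun z => z ^ n)).sum) (P : ℂ[X]) :
    (s.map (fun z => P.eval z)).sum = (t.map (fun z => P.eval z)).sum := by
  induction P using Polynomial.induction_on' with
  | add p q hp hq =>
    simp only [Polynomial.eval_add, Multiset.sum_map_add]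
    rw [hp, hq]
  | monomial n a =>
    simp only [Polynomial.eval_monomial, Multiset.sum_map_mul_left]
    rw [h n]

theorem sum_ite (s : Multiset ℂ) (z : ℂ) :
    (s.map (fun w => if w = z then (1 : ℂ) else 0)).sum = (s.count z : ℂ) := by
  induction s using Multiset.induction_on with
  | empty => simp
  | cons a s ih =>
    rw [Multiset.map_cons, Multiset.sum_cons, ih, Multiset.count_cons]
    by_cases h : a = z
    · subst h
      simp [add_comm]
    · have h' : ¬ z = a := fun h' => h h'.symm
      simp [h, h']

theorem count_eq (s u : Multiset ℂ) (z : ℂ) (hsu : ∀ w ∈ s, w ∈ u) :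
    (s.map (fun w => (Lagrange.basis (insert z u.toFinset) id z).eval w)).sum
      = (s.count z : ℂ) := by
  rw [← sum_ite s z]
  refine congrArg Multiset.sum (Multiset.map_congr rfl ?_)
  intro w hw
  have hinj : Set.InjOn (id : ℂ → ℂ) (insert z u.toFinset : Finset ℂ) := fun a _ b _ h => h
  have hz : z ∈ insert z u.toFinset := Finset.mem_insert_self _ _
  have hwm : w ∈ insert z u.toFinset :=
    Finset.mem_insert_of_mem (Multiset.mem_toFinset.2 (hsu w hw))
  by_cases h : w = z
  · subst h
    rw [if_pos rfl]
    have h1 := Lagrange.eval_basis_self (F := ℂ) (v := (id : ℂ → ℂ)) (s := insert w u.toFinset)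
      (i := w) hinj hz
    exact h1
  · rw [if_neg h]
    have h1 := Lagrange.eval_basis_of_ne (F := ℂ) (v := (id : ℂ → ℂ)) (s := insert z u.toFinset)
      (i := z) (j := w) (fun h' => h h'.symm) hwm
    exact h1

end MUL

theorem t_MUL : S_MUL := by
  intro s t h
  ext z
  have h1 := MUL.count_eq s (s + t) z (fun w hw => Multiset.mem_add.2 (Or.inl hw))
  have h2 := MUL.count_eq t (s + t) z (fun w hw => Multiset.mem_add.2 (Or.inr hw))
  rw [MUL.sum_eval s t h, h2] at h1
  exact_mod_cast h1.symm

end

end Pool.Agent.WAF
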