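import Pool.Agent.WAF.St
import Pool.Agent.WAE.Main
import Pool.Agent.TJ4.C34
import Pool.Agent.TJ4.CRC
import Pool.Agent.TJ4.PART4
import Pool.Agent.TJ4.E14
import Pool.Agent.TJ4.GIS4
import Pool.Agent.TJ4.IND34
import Pool.Agent.TJ4.IND44
import Pool.Agent.TJ4.EXV
import Pool.Agent.TJ4.SLP
import Pool.Agent.TJ4.VAL4
import Pool.Agent.TJ4.LOC
import Pool.Agent.TJ4.UNI4
import Pool.Agent.TJ4.ORB4
import Pool.Agent.TJ4.GRP4
import Pool.Agent.TJ4.REL4

/-!
# Arithmetic of block WAF (MP_cb388a_ag, MP_6c4da4_ag; helper51)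

The criterion `TJ4.Cr` gives the partner property; the set `Sel1 q` (almost all ordinary real Weil
polynomials, and all ordinary elliptic curves) satisfies the criterion.
-/

open Polynomial IntermediateField Filter

namespace Pool.Agent.WAF

open Pool.Agent.TJ2 Pool.Agent.TJ3 Pool.Agent.TJ4 Pool.Agent.WAE

noncomputable section

theorem ind34_all : S_IND34 :=
  t_IND34 (t_IND44 (t_REL4 (t_GRP4 t_ORB4) t_SLP t_GIS4)) (t_VAL4 t_SLP) t_GIS4

theorem uni4_all : S_UNI4 := t_UNI4 t_SLP t_LOC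

/-- the criterion gives the partner property -/
theorem par_of_cr {q : ℕ} {v : AbsoluteValue Qb ℝ} {S : Set ℤ[X]} (hq : IsPrimePow q)
    (hv : Ab q v) (hS : S ⊆ FL q) (hC : Cr q v S) : Par q (Adm q S) := by
  intro z l hz hl j N hN hlen he
  exact t_PART4 ind34_all q v S hq hv hS hC ℂ z l hz hl j N hN hlen he

/-- independent representatives give the criterion on slope vectors -/
theorem cr_of_rep {q : ℕ} {v : AbsoluteValue Qb ℝ} {S : Set ℤ[X]} (hq : IsPrimePow q)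
    (hv : Ab q v) (hS : S ⊆ FO q) (hR : Rep q S) : Cr q v S := by
  have hSL : S ⊆ FL q := hS.trans (t_GIS4 q hq).1
  intro n h B hB _ _ hG
  by_contra hne
  exact not_data hq hS hR (t_E14 t_SLP uni4_all t_GIS4 q v S hq hv hSL n h B hB hG hne)

theorem cr_Sel1 {q : ℕ} {v : AbsoluteValue Qb ℝ} (hq : IsPrimePow q) (hv : Ab q v) :
    Cr q v (Sel1 q) :=
  cr_of_rep hq hv (fun _ hh => hh.1) (rep_Sel1 t_RPX inx_all hq)

/-- absolute values -/
theorem norm_adm (hADN : S_ADN) {q : ℕ} {S : Set ℤ[X]} (hq : 2 ≤ q) (hS : S ⊆ FL q) (z : ℂ)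
    (hz : Adm q S z) : ‖z‖ ^ 2 = (q : ℝ) :=
  hADN q S hq (fun _ hh => (hS hh).2.1) z hz

/-- the set of the density statement -/
theorem set_all : ∃ S : ℕ → Set ℤ[X],
    (∀ q, IsPrimePow q → S q ⊆ FO q ∧ S q ⊆ FL q ∧ Ord 1 q ⊆ S q ∧
      ∀ v : AbsoluteValue Qb ℝ, Ab q v → Cr q v (S q)) ∧
    ∀ g : ℕ, 1 ≤ g → Tendsto
      (fun q : {q : ℕ // IsPrimePow q} => ((S q ∩ Ord g q).ncard : ℝ) / (Ord g q).ncard)
      atTop (nhds 1) := by
  refine ⟨Sel1, fun q hq => ⟨fun _ hh => hh.1, fun _ hh => (t_GIS4 q hq).1 hh.1,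
    (sub_all q hq).2, fun v hv => cr_Sel1 hq hv⟩, fun g hg => density1 sub_all hg⟩

end

end Pool.Agent.WAF
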