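import Pool.Agent.WAF.St

/-!
# ADN: absolute values of admissible numbers
-/

open Polynomial

namespace Pool.Agent.WAF

open Pool.Agent.TJ2 Pool.Agent.TJ3 Pool.Agent.WAV Pool.Agent.WAE

noncomputable section

namespace ADN

lemma real_case (x y b q : ℝ) (hb : b ^ 2 ≤ 4 * q) (h1 : x ^ 2 - y ^ 2 - b * x + q = 0)
    (h2 : 2 * x * y - b * y = 0) : x ^ 2 + y ^ 2 = q := by
  have h3 : y * (2 * x - b) = 0 := by linear_combination h2
  rcases mul_eq_zero.1 h3 with hy | hx
  · rw [hy] at h1 ⊢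
    have h4 : (2 * x - b) ^ 2 ≤ 0 := by nlinarith
    have h5 : 2 * x - b = 0 := by
      have := le_antisymm h4 (sq_nonneg _)
      exact pow_eq_zero_iff (two_ne_zero) |>.1 this
    have h6 : b = 2 * x := by linarith
    rw [h6] at h1
    linear_combination -h1
  · have h6 : b = 2 * x := by linarith
    rw [h6] at h1
    linear_combination -h1

lemma weil_aeval (q : ℕ) (h : ℤ[X]) (a : ℂ) :
    aeval a (weil q h) = ∑ i ∈ Finset.range (h.natDegree + 1),
      (h.coeff i : ℂ) * (a ^ 2 + (q : ℂ)) ^ i * a ^ (h.natDegree - i) := by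
  unfold weil
  rw [map_sum]
  refine Finset.sum_congr rfl fun i _ => ?_
  simp

lemma weil_root (q : ℕ) (h : ℤ[X]) (hq : 1 ≤ q) (hm : h.Monic) (a : ℂ)
    (hr : aeval a (weil q h) = 0) : a ≠ 0 ∧ aeval (a + (q : ℂ) / a) h = 0 := by
  have hq0 : (q : ℂ) ≠ 0 := by
    have : q ≠ 0 := by omega
    exact_mod_cast this
  rw [weil_aeval] at hr
  by_cases ha : a = 0
  · have h1 : ∑ i ∈ Finset.range (h.natDegree + 1),
        (h.coeff i : ℂ) * (a ^ 2 + (q : ℂ)) ^ i * a ^ (h.natDegree - i) =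
        (q : ℂ) ^ h.natDegree := by
      rw [Finset.sum_range_succ, Finset.sum_eq_zero, zero_add, Nat.sub_self, pow_zero, mul_one]
      · have h2 : h.coeff h.natDegree = 1 := hm
        rw [h2, ha]
        simp
      · intro i hi
        rw [Finset.mem_range] at hi
        rw [ha, zero_pow (by omega : h.natDegree - i ≠ 0), mul_zero]
    rw [h1] at hr
    exact absurd hr (pow_ne_zero _ hq0)
  · refine ⟨ha, ?_⟩
    have h1 : ∑ i ∈ Finset.range (h.natDegree + 1),
        (h.coeff i : ℂ) * (a ^ 2 + (q : ℂ)) ^ i * a ^ (h.natDegree - i) =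
        a ^ h.natDegree * aeval (a + (q : ℂ) / a) h := by
      rw [aeval_eq_sum_range, Finset.mul_sum]
      refine Finset.sum_congr rfl fun i hi => ?_
      rw [Finset.mem_range] at hi
      have h2 : a ^ 2 + (q : ℂ) = a * (a + (q : ℂ) / a) := by
        field_simp
      have h3 : a ^ h.natDegree = a ^ i * a ^ (h.natDegree - i) := by
        rw [← pow_add]
        congr 1
        omega
      rw [h2, h3, mul_pow, zsmul_eq_mul]
      ring
    rw [h1] at hr
    exact (mul_eq_zero.1 hr).resolve_left (pow_ne_zero _ ha)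

lemma root_norm {q : ℕ} {h : ℤ[X]} (hq : 2 ≤ q) (hh : h ∈ RW h.natDegree q) {z : ℂ}
    (hr : aeval z (weil q h) = 0) : ‖z‖ ^ 2 = (q : ℝ) := by
  have hqr : (0 : ℝ) < q := by
    have : 0 < q := by omega
    exact_mod_cast this
  obtain ⟨hz0, hroot⟩ := weil_root q h (by omega) hh.1 z hr
  obtain ⟨him, hre⟩ := hh.2.2 _ hroot
  set β : ℂ := z + (q : ℂ) / z with hβd
  have hb2 : β.re ^ 2 ≤ 4 * (q : ℝ) := by
    have h1 : |β.re| ^ 2 ≤ (2 * Real.sqrt q) ^ 2 := pow_le_pow_left₀ (abs_nonneg _) hre 2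
    rw [sq_abs, mul_pow, Real.sq_sqrt hqr.le] at h1
    linarith
  have hquad : z ^ 2 - β * z + (q : ℂ) = 0 := by
    rw [hβd]
    field_simp
    ring
  have hr' : z.re ^ 2 - z.im ^ 2 - β.re * z.re + (q : ℝ) = 0 := by
    have := congrArg Complex.re hquad
    simp [pow_two, him] at this
    linear_combination this
  have hi : 2 * z.re * z.im - β.re * z.im = 0 := by
    have := congrArg Complex.im hquad
    simp [pow_two, him] at this
    linear_combination this
  have hn := real_case _ _ _ _ hb2 hr' hi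
  rw [← Complex.normSq_eq_norm_sq, Complex.normSq_apply]
  linear_combination hn

end ADN

theorem t_ADN : S_ADN := by
  intro q S hq hS z hz
  obtain ⟨N, hN, h1 | ⟨h, hh, r, hr, hzr⟩⟩ := hz
  · have h2 : (‖z‖ ^ 2) ^ N = (q : ℝ) ^ N := by
      rw [← pow_mul, ← norm_pow, h1, norm_pow, Complex.norm_natCast]
    exact (pow_left_inj₀ (by positivity) (by positivity) (by omega)).1 h2
  · have h2 : ‖z‖ ^ N = ‖r‖ ^ N := by rw [← norm_pow, hzr, norm_pow]
    have h3 : ‖z‖ = ‖r‖ := (pow_left_inj₀ (norm_nonneg _) (norm_nonneg _) (by omega)).1 h2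
    rw [h3]
    exact ADN.root_norm hq (hS h hh) hr

end

end Pool.Agent.WAF
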