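import Pool.Agent.WAE.Defs
import Pool.Agent.TJ3.St

/-!
# Definitions: the motives of all abelian varieties over a finite field (MP_cb388a_ag, helper51)
-/

open CategoryTheory MonoidalCategory BraidedCategory Limits Polynomial

universe v u

namespace Pool.Agent.WAF

open Pool.Agent.TJ2 Pool.Agent.TJ3 Pool.Agent.WAE

noncomputable section

open Classical in
/-- the number of the pairs `(a, b)` in `s × s` (with multiplicities) with `a b = q` -/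
def nPairs (q : ℕ) (s : Multiset ℂ) : ℕ :=
  Multiset.card ((s ×ˢ s).filter (fun x => x.1 * x.2 = (q : ℂ)))

variable {C : Type u} [Category.{v} C] [Preadditive C] [Linear ℚ C] [MonoidalCategory C]
  [SymmetricCategory C] [MonoidalPreadditive C] [MonoidalLinear ℚ C] [RightRigidCategory C]

/-- Objects `T` (Lefschetz motive), `T'` (its inverse), `L N` (the motive of the field with `q ^ N`
elements) and a class `Ab` of objects (the motives `h¹(A)` of the abelian varieties over the field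
with `q` elements), in a category with a Frobenius structure. -/
structure AVT (W : MotP.Frobenius C) (q : ℕ) where
  T : C
  T' : C
  L : ℕ → C
  Ab : C → Prop
  unitT : Nonempty (T ⊗ T' ≅ 𝟙_ C)
  frobT : W.F.app T = (q : ℚ) • 𝟙 T
  oneL : Nonempty (L 1 ≅ 𝟙_ C)
  frobL : ∀ N, 1 ≤ N → Mot.component W.F (L N) ^ N = 1
  evenL : ∀ N, 1 ≤ N → W.even (L N) = (X ^ N - 1 : ℚ[X]).aroots ℂ
  oddL : ∀ N, 1 ≤ N → W.odd (L N) = 0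
  sumL : ∀ N, 1 ≤ N → ∃ (r : L N ⟶ 𝟙_ C) (s : 𝟙_ C ⟶ L N),
    ∑ i ∈ Finset.range N, Mot.component W.F (L N) ^ i = (r ≫ s : L N ⟶ L N)
  dualL : ∀ N, 1 ≤ N → Nonempty ((L N)ᘁ ≅ L N)
  tensL : ∀ N N', 1 ≤ N → 1 ≤ N' → Smd (L (N * N')) (L N ⊗ L N')
  even : ∀ Y, Ab Y → W.even Y = 0
  semi : ∀ Y, Ab Y → ∃ P : ℚ[X], Squarefree P ∧ aeval (Mot.component W.F Y) P = 0 ∧
    ∀ z : ℂ, aeval z P = 0 ↔ z ∈ W.odd Y
  pol : ∀ Y, Ab Y → Nonempty (Yᘁ ⊗ T ≅ Y)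
  kim : ∀ Y, Ab Y → ∀ e : Y ⊗ Y ⟶ Y ⊗ Y, e ≫ e = e → Mot.trace e = 0 → e = 0
  tate : ∀ Y, Ab Y → Module.finrank ℚ (T ⟶ Y ⊗ Y) = nPairs q (W.odd Y)
  num : ∀ Y, Ab Y → ∀ s : T ⟶ Y ⊗ Y, (∀ r : Y ⊗ Y ⟶ T, s ≫ r = 0) → s = 0
  sum : ∀ Y Z, Ab Y → Ab Z → ∃ (V : C) (i : Y ⟶ V) (p : V ⟶ Y) (j : Z ⟶ V) (r : V ⟶ Z),
    Ab V ∧ i ≫ p = 𝟙 Y ∧ j ≫ r = 𝟙 Z ∧ p ≫ i + r ≫ j = 𝟙 V
  res : ∀ Y, Ab Y → ∀ N, 1 ≤ N → Ab (L N ⊗ Y)

variable {W : MotP.Frobenius C} {q : ℕ}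

/-- the generators: `T`, `L N` for `N ≥ 1`, and the `Y` in `Ab` all of whose Frobenius eigenvalues have
the property `Λ` -/
def AVT.Gn (D : AVT W q) (Λ : ℂ → Prop) (Y : C) : Prop :=
  Y = D.T ∨ (∃ N, 1 ≤ N ∧ Y = D.L N) ∨ (D.Ab Y ∧ ∀ z ∈ W.odd Y, Λ z)

/-- the generators for a set `S` of real Weil polynomials: `T`, `L N` for `N ≥ 1`, and the `Y` in `Ab` all
of whose Frobenius eigenvalues are, up to roots of unity, `√q` or roots of `weil q h`, `h ∈ S` -/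
def AVT.Obj (D : AVT W q) (S : Set ℤ[X]) (Y : C) : Prop := D.Gn (Adm q S) Y

/-- objects isomorphic to `(T ^ a ⊗ T' ^ b) ⊗ L N` -/
def AVT.UN (D : AVT W q) (U : C) : Prop :=
  ∃ a b N : ℕ, 1 ≤ N ∧ Nonempty (U ≅ (Mot.T D.T a ⊗ Mot.T D.T' b) ⊗ D.L N)

/-- `Y ⊗ (Y ⊗ ... (Y ⊗ U))`, `m` factors `Y` -/
def Pw (Y U : C) (m : ℕ) : C := Zo (fun _ => Y) U (List.replicate m (0 : ℤ[X]))

/-- objects isomorphic to words `Pw Y U m`, `U` as above, `Y` in `Ab` with eigenvalues in `Λ` (no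
condition on `Y` if `m = 0`) -/
def AVT.WN (D : AVT W q) (Λ : ℂ → Prop) (Z : C) : Prop :=
  ∃ (Y U : C) (m : ℕ), D.UN U ∧ (1 ≤ m → D.Ab Y ∧ ∀ z ∈ W.odd Y, Λ z) ∧ Nonempty (Z ≅ Pw Y U m)

/-- a power of Frobenius is the same power of `q ^ k` -/
def Pk (W : MotP.Frobenius C) (q : ℕ) (U : C) : Prop :=
  ∃ N : ℕ, 1 ≤ N ∧ ∃ k : ℤ, Mot.component W.F U ^ N = ((q : ℚ) ^ k) ^ N • 1

/-- Partners: if a power of `z y₁ ⋯ y_(2 j - 1)` is the same power of `q ^ j`, then some `z y_i` is `q` up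
to a root of unity. -/
def Par (q : ℕ) (Λ : ℂ → Prop) : Prop :=
  ∀ (z : ℂ) (l : List ℂ), Λ z → (∀ y ∈ l, Λ y) → ∀ j N : ℕ, 1 ≤ N → l.length + 1 = 2 * j →
    (z * l.prod) ^ N = ((q : ℂ) ^ j) ^ N → ∃ y ∈ l, ∃ M : ℕ, 1 ≤ M ∧ (z * y) ^ M = (q : ℂ) ^ M

/-- real Weil polynomials `h` of degree `g` with `h(0)` prime to `q`, or `q ∣ h(0) ^ 2` -/
def AVP (g q : ℕ) : Set ℤ[X] :=
  {h | h ∈ RW g q ∧ (¬ (q.minFac : ℤ) ∣ h.coeff 0 ∨ (q : ℤ) ∣ h.coeff 0 ^ 2)}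

end

end Pool.Agent.WAF
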