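import Pool.Agent.WAE.Main
import Pool.Agent.WAF.Defs

/-!
# Density among all isogeny classes (MP_cb388a_ag, MP_6c4da4_ag; helper51)

The real Weil polynomial `h` of an abelian variety of dimension `g` over the field with `q` elements which
is not ordinary satisfies `q ∣ h(0) ^ 2` (the Newton polygon has integral vertices), and there are few
such polynomials.
-/

open Polynomial Filter

namespace Pool.Agent.WAF

open Pool.Agent.TJ2 Pool.Agent.WAE

noncomputable section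

/-- the real Weil polynomials with `q ∣ h(0) ^ 2` -/
def NAP (g q : ℕ) : Set ℤ[X] := {h | h ∈ RW g q ∧ (q : ℤ) ∣ h.coeff 0 ^ 2}

theorem sq_dvd {q : ℕ} (hq : IsPrimePow q) :
    ∃ m : ℕ, 1 ≤ m ∧ q ≤ m ^ 2 ∧ ∀ x : ℤ, (q : ℤ) ∣ x ^ 2 → (m : ℤ) ∣ x := by
  obtain ⟨p, r, hp, hr, rfl⟩ := (isPrimePow_nat_iff q).1 hq
  have : Fact p.Prime := ⟨hp⟩
  refine ⟨p ^ ((r + 1) / 2), Nat.one_le_iff_ne_zero.2 (pow_ne_zero _ hp.ne_zero), ?_, ?_⟩
  · rw [← pow_mul]
    exact Nat.pow_le_pow_right hp.pos (by omega)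
  · intro x hx
    rcases eq_or_ne x 0 with rfl | h0
    · exact dvd_zero _
    · push_cast at hx ⊢
      rw [padicValInt_dvd_iff] at hx ⊢
      rcases hx with hx | hx
      · exact absurd hx (pow_ne_zero 2 h0)
      · right
        rw [sq, padicValInt.mul h0 h0] at hx
        omega

theorem count_mult (N m : ℕ) (hm : 1 ≤ m) :
    {x : ℤ | |x| ≤ (N : ℤ) ∧ (m : ℤ) ∣ x}.ncard ≤ 2 * (N / m) + 1 := by
  have hsub : {x : ℤ | |x| ≤ (N : ℤ) ∧ (m : ℤ) ∣ x} ⊆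
      (fun y : ℤ => (m : ℤ) * y) '' (Set.Icc (-((N / m : ℕ) : ℤ)) ((N / m : ℕ) : ℤ)) := by
    rintro x ⟨hx, y, rfl⟩
    refine ⟨y, ?_, rfl⟩
    have hm0 : (0 : ℤ) < m := by exact_mod_cast hm
    rw [abs_mul, abs_of_pos hm0] at hx
    have h1 : |y| ≤ (N : ℤ) / m := by
      rw [Int.le_ediv_iff_mul_le hm0]
      linarith
    have h2 : |y| ≤ ((N / m : ℕ) : ℤ) := by push_cast; exact h1
    exact abs_le.1 h2
  refine (Set.ncard_le_ncard hsub ((Set.finite_Icc _ _).image _)).trans ?_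
  refine (Set.ncard_image_le (Set.finite_Icc _ _)).trans ?_
  rw [← Nat.card_coe_set_eq, Nat.card_eq_fintype_card, Fintype.card_ofFinset, Int.card_Icc]
  omega

theorem nap_fib {g q : ℕ} (hq : IsPrimePow q) (h₀ : ℤ[X]) :
    ({h | h ∈ NAP g q ∧ ∀ i, 1 ≤ i → h.coeff i = h₀.coeff i}.ncard : ℝ) ≤
      2 * ((2 * Real.sqrt q) ^ g / Real.sqrt q) + 1 := by
  classical
  obtain ⟨m, hm, hmq, hdvd⟩ := sq_dvd hq
  set N : ℕ := ⌊(2 * Real.sqrt q) ^ g⌋₊ with hN
  have hs0 : 0 ≤ Real.sqrt q := Real.sqrt_nonneg _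
  have hq1 : (1 : ℝ) ≤ q := by exact_mod_cast hq.pos
  have hspos : 0 < Real.sqrt q := Real.sqrt_pos.2 (by linarith)
  have hNle : (N : ℝ) ≤ (2 * Real.sqrt q) ^ g := Nat.floor_le (by positivity)
  have hsm : Real.sqrt q ≤ m := by
    rw [Real.sqrt_le_left (by positivity)]
    exact_mod_cast hmq
  have hfin : {x : ℤ | |x| ≤ (N : ℤ) ∧ (m : ℤ) ∣ x}.Finite :=
    (Set.finite_Icc (-(N : ℤ)) (N : ℤ)).subset fun x hx => abs_le.1 hx.1
  have h1 : {h | h ∈ NAP g q ∧ ∀ i, 1 ≤ i → h.coeff i = h₀.coeff i}.ncard ≤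
      {x : ℤ | |x| ≤ (N : ℤ) ∧ (m : ℤ) ∣ x}.ncard := by
    refine Set.ncard_le_ncard_of_injOn (fun h : ℤ[X] => h.coeff 0) ?_ ?_ hfin
    · rintro h ⟨⟨hh, hd⟩, -⟩
      refine ⟨?_, hdvd _ hd⟩
      have hb := (t_BOX g q).2 h hh 0 (Nat.zero_le g)
      rw [Nat.choose_zero_right, Nat.sub_zero, Nat.cast_one, one_mul] at hb
      have hb1 : ((h.coeff 0).natAbs : ℝ) ≤ (2 * Real.sqrt q) ^ g := by
        rw [Nat.cast_natAbs]
        exact_mod_cast hb
      have hb2 : (h.coeff 0).natAbs ≤ N := Nat.le_floor hb1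
      show |h.coeff 0| ≤ (N : ℤ)
      rw [Int.abs_eq_natAbs]
      exact_mod_cast hb2
    · intro h hh h' hh' he
      ext i
      rcases Nat.eq_zero_or_pos i with rfl | hi
      · exact he
      · rw [hh.2 i hi, hh'.2 i hi]
  have h2 := h1.trans (count_mult N m hm)
  have h3 : ((N / m : ℕ) : ℝ) ≤ (2 * Real.sqrt q) ^ g / Real.sqrt q := by
    refine Nat.cast_div_le.trans ?_
    exact div_le_div₀ (by positivity) hNle hspos hsm
  calc (_ : ℝ) ≤ ((2 * (N / m) + 1 : ℕ) : ℝ) := by exact_mod_cast h2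
    _ = 2 * ((N / m : ℕ) : ℝ) + 1 := by push_cast; ring
    _ ≤ _ := by linarith

/-- there are few real Weil polynomials with `q ∣ h(0) ^ 2` -/
theorem nap_small {g : ℕ} (hg : 1 ≤ g) (η : ℝ) (hη : 0 < η) : ∃ q₀ : ℕ, ∀ q ≥ q₀,
    IsPrimePow q → ((NAP g q).ncard : ℝ) ≤ η * Lam g q := by
  obtain ⟨K, hK, hfib⟩ := t_FIBA t_BOX g hg
  refine ⟨⌈(K * (2 ^ (g + 1) + 1) / η) ^ 2⌉₊, fun q hq hpp => ?_⟩
  have hq1 : (1 : ℝ) ≤ q := by exact_mod_cast hpp.pos
  have hs1 : 1 ≤ Real.sqrt q := by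
    rw [Real.one_le_sqrt]
    exact hq1
  have hspos : 0 < Real.sqrt q := by linarith
  have hbig : K * (2 ^ (g + 1) + 1) / η ≤ Real.sqrt q := by
    refine Real.le_sqrt_of_sq_le ?_
    have h1 := Nat.le_ceil ((K * (2 ^ (g + 1) + 1) / η) ^ 2)
    have h2 : ((⌈(K * (2 ^ (g + 1) + 1) / η) ^ 2⌉₊ : ℕ) : ℝ) ≤ q := by exact_mod_cast hq
    linarith
  have hmain := hfib q (NAP g q) (2 * ((2 * Real.sqrt q) ^ g / Real.sqrt q) + 1) hpp.pos
    (fun _ hh => hh.1) (fun h₀ => nap_fib hpp h₀)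
  have hLam : 0 < Lam g q := by
    unfold Lam
    exact Finset.prod_pos fun i _ => by positivity
  obtain ⟨k, rfl⟩ : ∃ k, g = k + 1 := ⟨g - 1, by omega⟩
  set s := Real.sqrt q with hs
  have e1 : (2 * s) ^ (k + 1) / s = 2 ^ (k + 1) * s ^ k := by
    rw [mul_pow, pow_succ s k]
    field_simp
  rw [e1] at hmain
  have hsk : 1 ≤ s ^ k := one_le_pow₀ hs1
  have e2 : 2 * (2 ^ (k + 1) * s ^ k) + 1 ≤ (2 ^ (k + 1 + 1) + 1) * s ^ k := by
    rw [pow_succ (2 : ℝ) (k + 1)]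
    nlinarith
  have e3 : K * (2 ^ (k + 1 + 1) + 1) ≤ η * s := by
    rw [div_le_iff₀ hη] at hbig
    linarith
  have e4 : K * (2 * (2 ^ (k + 1) * s ^ k) + 1) * Lam (k + 1) q ≤
      η * Lam (k + 1) q * s ^ (k + 1) := by
    have f1 : K * (2 * (2 ^ (k + 1) * s ^ k) + 1) ≤ K * (2 ^ (k + 1 + 1) + 1) * s ^ k := by
      rw [mul_assoc]
      exact mul_le_mul_of_nonneg_left e2 hK.le
    have f2 : K * (2 ^ (k + 1 + 1) + 1) * s ^ k ≤ η * s * s ^ k :=
      mul_le_mul_of_nonneg_right e3 (by positivity)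
    calc _ ≤ (η * s * s ^ k) * Lam (k + 1) q :=
          mul_le_mul_of_nonneg_right (f1.trans f2) hLam.le
      _ = _ := by ring
  exact le_of_mul_le_mul_right (hmain.trans e4) (by positivity)

/-- Density among all isogeny classes: let `A q` be any set of real Weil polynomials of degree `g` which
contains the ordinary ones, such that `q ∣ h(0) ^ 2` for the others. -/
theorem density_all {S : ℕ → Set ℤ[X]} {g : ℕ} (hg : 1 ≤ g)
    (hS : Tendsto
      (fun q : {q : ℕ // IsPrimePow q} => ((S q ∩ Ord g q).ncard : ℝ) / (Ord g q).ncard)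
      atTop (nhds 1)) (A : ℕ → Set ℤ[X])
    (hA : ∀ q, IsPrimePow q → Ord g q ⊆ A q ∧ A q ⊆ AVP g q) :
    Tendsto (fun q : {q : ℕ // IsPrimePow q} => ((S q ∩ A q).ncard : ℝ) / (A q).ncard)
      atTop (nhds 1) := by
  have hne : Nonempty {q : ℕ // IsPrimePow q} := ⟨⟨2, Nat.prime_two.isPrimePow⟩⟩
  rw [Metric.tendsto_atTop] at hS ⊢
  intro ε hε
  obtain ⟨κ, hκ, q0, hlow⟩ := t_LOW g hg
  obtain ⟨q1, hnap⟩ := nap_small hg (κ * (ε / 4)) (by positivity)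
  obtain ⟨q2, hq2⟩ := hS (ε / 2) (by positivity)
  obtain ⟨q3, hq3⟩ : ∃ q : {q : ℕ // IsPrimePow q}, max (q2 : ℕ) (max q0 q1) ≤ (q : ℕ) := by
    obtain ⟨p, hp1, hp2⟩ := Nat.exists_infinite_primes (max (q2 : ℕ) (max q0 q1))
    exact ⟨⟨p, hp2.isPrimePow⟩, hp1⟩
  refine ⟨q3, fun q hq => ?_⟩
  have hq' : max (q2 : ℕ) (max q0 q1) ≤ (q : ℕ) := hq3.trans hq
  have g2 : q2 ≤ q := show (q2 : ℕ) ≤ (q : ℕ) from (le_max_left _ _).trans hq'
  have g0 : q0 ≤ (q : ℕ) := ((le_max_left _ _).trans (le_max_right _ _)).trans hq'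
  have g1 : q1 ≤ (q : ℕ) := ((le_max_right _ _).trans (le_max_right _ _)).trans hq'
  have hlow' := hlow q g0 q.2
  have hnap' := hnap q g1 q.2
  have hd := hq2 q g2
  obtain ⟨hA1, hA2⟩ := hA q q.2
  have hRW : (RW g (q : ℕ)).Finite := (t_BOX g q).1
  have hOfin : (Ord g (q : ℕ)).Finite := hRW.subset fun h hh => hh.1
  have hAfin : (A (q : ℕ)).Finite := hRW.subset fun h hh => (hA2 hh).1
  have hNfin : (NAP g (q : ℕ)).Finite := hRW.subset fun h hh => hh.1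
  have hLam : 0 < Lam g q := by
    have hq1 : (1 : ℝ) ≤ (q : ℕ) := by exact_mod_cast q.2.pos
    have hspos : 0 < Real.sqrt (q : ℕ) := Real.sqrt_pos.2 (by linarith)
    unfold Lam
    exact Finset.prod_pos fun i _ => by positivity
  -- the numbers
  have c1 : (A q).ncard ≤ (Ord g q).ncard + (NAP g q).ncard := by
    refine (Set.ncard_le_ncard ?_ (hOfin.union hNfin)).trans (Set.ncard_union_le _ _)
    intro h hh
    rcases (hA2 hh).2 with h1 | h1
    · exact Or.inl ⟨(hA2 hh).1, h1⟩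
    · exact Or.inr ⟨(hA2 hh).1, h1⟩
  have c2 : (S q ∩ Ord g q).ncard ≤ (S q ∩ A q).ncard :=
    Set.ncard_le_ncard (Set.inter_subset_inter_right _ hA1) (hAfin.subset Set.inter_subset_right)
  have c3 : (S q ∩ A q).ncard ≤ (A q).ncard := Set.ncard_le_ncard Set.inter_subset_right hAfin
  have c4 : (Ord g q).ncard ≤ (A q).ncard := Set.ncard_le_ncard hA1 hAfin
  have d1 : ((A q).ncard : ℝ) ≤ (Ord g q).ncard + (NAP g q).ncard := by exact_mod_cast c1
  have d2 : ((S q ∩ Ord g q).ncard : ℝ) ≤ (S q ∩ A q).ncard := by exact_mod_cast c2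
  have d3 : ((S q ∩ A q).ncard : ℝ) ≤ (A q).ncard := by exact_mod_cast c3
  have d4 : ((Ord g q).ncard : ℝ) ≤ (A q).ncard := by exact_mod_cast c4
  have hOpos : (0 : ℝ) < (Ord g q).ncard := lt_of_lt_of_le (by positivity) hlow'
  have hApos : (0 : ℝ) < (A q).ncard := hOpos.trans_le d4
  have d5 : ((NAP g q).ncard : ℝ) ≤ (ε / 4) * (Ord g q).ncard := by
    refine hnap'.trans ?_
    have := mul_le_mul_of_nonneg_left hlow' (by positivity : (0 : ℝ) ≤ ε / 4)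
    linarith
  rw [Real.dist_eq] at hd ⊢
  have d6 : (1 - ε / 2) * (Ord g q).ncard ≤ (S q ∩ Ord g q).ncard := by
    have h1 := (abs_lt.1 hd).1
    have h2 : 1 - ε / 2 ≤ ((S q ∩ Ord g q).ncard : ℝ) / (Ord g q).ncard := by linarith
    rw [le_div_iff₀ hOpos] at h2
    exact h2
  have d7 : ((S q ∩ A q).ncard : ℝ) / (A q).ncard ≤ 1 := div_le_one_of_le₀ d3 hApos.le
  rw [abs_sub_comm, abs_of_nonneg (by linarith), sub_lt_iff_lt_add, ← sub_lt_iff_lt_add',
    lt_div_iff₀ hApos]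
  have d8 : (A q).ncard * ((1 : ℝ) - ε) < (S q ∩ Ord g q).ncard := by
    rcases le_or_gt 1 ε with h1 | h1
    · have h3 : (A q).ncard * ((1 : ℝ) - ε) ≤ 0 := by nlinarith
      rcases le_or_gt 2 ε with h2 | h2
      · rcases eq_or_lt_of_le (h3) with h4 | h4
        · have : ((A q).ncard : ℝ) * (1 - ε) < 0 := by nlinarith
          linarith
        · have : (0 : ℝ) ≤ ((S q ∩ Ord g q).ncard : ℝ) := by positivity
          linarith
      · have : 0 < (1 - ε / 2) * (Ord g q).ncard := by nlinarith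
        linarith
    · have h2 : (1 - ε) * ((A q).ncard : ℝ) ≤ (1 - ε) * ((1 + ε / 4) * (Ord g q).ncard) := by
        refine mul_le_mul_of_nonneg_left ?_ (by linarith)
        linarith
      nlinarith [mul_pos hε hOpos, mul_pos (mul_pos hε hε) hOpos]
  linarith

end

end Pool.Agent.WAF
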