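import Pool.Agent.WAF.St

/-!
# DUF: dual families
-/

namespace Pool.Agent.WAF

theorem t_DUF : S_DUF := by
  intro V V' _ _ _ _ B hB D hD
  rcases Nat.eq_zero_or_pos D with h0 | hpos
  · subst h0
    exact ⟨fun i => i.elim0, fun i => i.elim0, fun i => i.elim0⟩
  have : FiniteDimensional ℚ V := Module.finite_of_finrank_pos (hD ▸ hpos)
  have hinj : Function.Injective B := by
    rw [← LinearMap.ker_eq_bot, LinearMap.ker_eq_bot']
    intro s hs
    exact hB s fun r => by rw [hs]; rfl
  have hsurj : Function.Surjective B.flip := LinearMap.flip_surjective_iff₁.2 hinj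
  let b := Module.finBasisOfFinrankEq ℚ V hD
  choose r hr using fun j => hsurj (b.coord j)
  refine ⟨b, r, fun i j => ?_⟩
  have h1 : B (b i) (r j) = B.flip (r j) (b i) := rfl
  rw [h1, hr j, Module.Basis.coord_apply, Module.Basis.repr_self, Finsupp.single_apply]

end Pool.Agent.WAF
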