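import Pool.Agent.WAF.St
import Pool.Agent.WAE.FAX
import Pool.Agent.WAE.INW
import Pool.Agent.WAV.PRJ

/-!
# Module FAZ (MP_cb388a_ag): the induction: morphisms fixed by Frobenius factor through the unit, for
the words `Pw Y U m`
-/

open CategoryTheory MonoidalCategory BraidedCategory Polynomial

universe w v u

namespace Pool.Agent.WAF

open Pool.Agent.TJ2 Pool.Agent.TJ3 Pool.Agent.WAV Pool.Agent.WAE

noncomputable section

set_option linter.unusedSectionVars false

section

variable {C : Type u} [Category.{v} C] [Preadditive C] [Linear ℚ C] [MonoidalCategory C]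
  [SymmetricCategory C] [MonoidalPreadditive C] [MonoidalLinear ℚ C] [RightRigidCategory C]

/-! ## Sums -/

/-- an element of `thru` is a finite sum of composites -/
theorem FAZ_sum {T A B : C} {x : A ⟶ B} (hx : x ∈ thru T A B) :
    ∃ (m : ℕ) (s : Fin m → (T ⟶ B)) (r : Fin m → (A ⟶ T)), x = ∑ k, r k ≫ s k := by
  unfold thru at hx
  induction hx using Submodule.span_induction with
  | mem x h =>
    obtain ⟨r, s, rfl⟩ := h
    exact ⟨1, fun _ => s, fun _ => r, by simp⟩
  | zero => exact ⟨0, fun i => i.elim0, fun i => i.elim0, by simp⟩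
  | add a b _ _ ha hb =>
    obtain ⟨m, s, r, rfl⟩ := ha
    obtain ⟨n, s', r', rfl⟩ := hb
    refine ⟨m + n, Fin.append s s', Fin.append r r', ?_⟩
    rw [Fin.sum_univ_add]
    congr 1
    · refine Finset.sum_congr rfl fun k _ => ?_
      rw [Fin.append_left, Fin.append_left]
    · refine Finset.sum_congr rfl fun k _ => ?_
      rw [Fin.append_right, Fin.append_right]
  | smul c a _ ha =>
    obtain ⟨m, s, r, rfl⟩ := ha
    refine ⟨m, s, fun k => c • r k, ?_⟩
    rw [Finset.smul_sum]
    refine Finset.sum_congr rfl fun k _ => ?_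
    rw [Linear.smul_comp]

/-- a polynomial in the product of two commuting elements -/
theorem FAZ_ev2 {A : Type*} [Ring A] [Algebra ℚ A] (Q : ℚ[X]) (a b : A) (h : Commute a b) :
    ev2 (Q.natDegree + 1) (fun i j => if i = j then Q.coeff i else 0) a b = aeval (a * b) Q := by
  unfold ev2
  rw [aeval_eq_sum_range]
  refine Finset.sum_congr rfl fun i hi => ?_
  rw [Finset.sum_eq_single i]
  · change (if i = i then Q.coeff i else 0) • (a ^ i * b ^ i) = Q.coeff i • (a * b) ^ i
    rw [if_pos rfl, h.mul_pow]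
  · intro j _ hj
    change (if i = j then Q.coeff i else 0) • (a ^ i * b ^ j) = 0
    rw [if_neg (fun h' => hj h'.symm), zero_smul]
  · intro h'
    exact absurd hi h'

/-! ## The product of the operators -/

private def FAZ_rc (X Z : C) : End Z →* Module.End ℚ (X ⟶ Z) where
  toFun o := Linear.rightComp ℚ X (show Z ⟶ Z from o)
  map_one' := by
    ext f
    exact Category.comp_id f
  map_mul' a b := by
    ext f
    exact (Category.assoc f b a).symm

private def FAZ_wh (Y Z : C) : End Z →* End (Y ⊗ Z) where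
  toFun o := Y ◁ (show Z ⟶ Z from o)
  map_one' := MonoidalCategory.whiskerLeft_id Y Z
  map_mul' a b := MonoidalCategory.whiskerLeft_comp Y b a

private theorem FAZ_ofFn {A B : Type*} [Monoid A] [Monoid B] (φ : A →* B) (n : ℕ) (o : Fin n → A) :
    (List.ofFn (fun i => φ (o i))).prod = φ (List.ofFn o).prod := by
  rw [map_list_prod, List.map_ofFn]
  rfl

private def FAZ_o (F : 𝟭 C ⟶ 𝟭 C) (M : ℤ[X] → C) (U : C) (l : List ℤ[X]) (i : ℕ) :
    End (Zo M U l) := opZ F M U l i

private def FAZ_E (F : 𝟭 C ⟶ 𝟭 C) (M : ℤ[X] → C) (U : C) (l : List ℤ[X]) : End (Zo M U l) :=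
  (List.ofFn (fun i : Fin l.length => FAZ_o F M U l (i : ℕ))).prod

private theorem FAZ_cons (F : 𝟭 C ⟶ 𝟭 C) (M : ℤ[X] → C) (U : C) (h : ℤ[X]) (l : List ℤ[X]) :
    (FAZ_E F M U (h :: l) : Zo M U (h :: l) ⟶ Zo M U (h :: l)) =
      (M h ◁ (FAZ_E F M U l : Zo M U l ⟶ Zo M U l)) ≫ (F.app (M h) ▷ Zo M U l) := by
  have h1 : FAZ_E F M U (h :: l) = FAZ_o F M U (h :: l) 0 *
      (List.ofFn (fun i : Fin l.length => FAZ_o F M U (h :: l) ((i : ℕ) + 1))).prod := by
    unfold FAZ_E
    have e1 : List.ofFn (fun i : Fin (h :: l).length => FAZ_o F M U (h :: l) (i : ℕ)) =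
        List.ofFn (fun i : Fin (l.length + 1) => FAZ_o F M U (h :: l) (i : ℕ)) := rfl
    rw [e1, List.ofFn_succ, List.prod_cons]
    rfl
  have h2 : (List.ofFn (fun i : Fin l.length => FAZ_o F M U (h :: l) ((i : ℕ) + 1))).prod =
      FAZ_wh (M h) (Zo M U l) (FAZ_E F M U l) := by
    unfold FAZ_E
    rw [← FAZ_ofFn]
    rfl
  rw [h1, h2]
  rfl

/-- the Frobenius of a word is the product of all operators -/
private theorem FAZ_key (W : MotP.Frobenius C) (M : ℤ[X] → C) (U : C) : ∀ l : List ℤ[X],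
    W.F.app (Zo M U l) = opU W.F M U l ≫ (FAZ_E W.F M U l : Zo M U l ⟶ Zo M U l)
  | [] => by
    have h0 : FAZ_E W.F M U [] = 𝟙 U := by
      unfold FAZ_E
      rfl
    rw [h0]
    exact (Category.comp_id _).symm
  | h :: l => by
    rw [FAZ_cons]
    have h1 : W.F.app (Zo M U (h :: l)) = W.F.app (M h) ⊗ₘ W.F.app (Zo M U l) :=
      W.F_tensor (M h) (Zo M U l)
    rw [h1, FAZ_key W M U l, MonoidalCategory.tensorHom_def', MonoidalCategory.whiskerLeft_comp]
    exact Category.assoc _ _ _

/-- the product of the operators fixes the morphisms fixed by Frobenius -/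
private lemma FAZ_prd (W : MotP.Frobenius C) (M : ℤ[X] → C) (U : C) (l : List ℤ[X]) (A : C)
    (f : A ⟶ Zo M U l) (hf : f ≫ W.F.app (Zo M U l) = f) :
    ((List.ofFn (fun i : Fin l.length =>
      (Linear.rightComp ℚ A (opZ W.F M U l (i : ℕ)) : Module.End ℚ (A ⟶ Zo M U l)))).prod *
      (Linear.rightComp ℚ A (opU W.F M U l) : Module.End ℚ (A ⟶ Zo M U l))) f = f := by
  have h1 : (List.ofFn (fun i : Fin l.length =>
      (Linear.rightComp ℚ A (opZ W.F M U l (i : ℕ)) : Module.End ℚ (A ⟶ Zo M U l)))).prod =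
      FAZ_rc A (Zo M U l) (FAZ_E W.F M U l) := by
    unfold FAZ_E
    rw [← FAZ_ofFn]
    rfl
  rw [h1, Module.End.mul_apply]
  have h2 : FAZ_rc A (Zo M U l) (FAZ_E W.F M U l)
      ((Linear.rightComp ℚ A (opU W.F M U l) : Module.End ℚ (A ⟶ Zo M U l)) f) =
      (f ≫ opU W.F M U l) ≫ (FAZ_E W.F M U l : Zo M U l ⟶ Zo M U l) := rfl
  rw [h2, Category.assoc, ← FAZ_key, hf]

private lemma FAZ_com (F : 𝟭 C ⟶ 𝟭 C) (M : ℤ[X] → C) (U : C) : ∀ (l : List ℤ[X]) (i : ℕ),
    opU F M U l ≫ opZ F M U l i = opZ F M U l i ≫ opU F M U l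
  | [], i => by
    change F.app U ≫ 𝟙 U = 𝟙 U ≫ F.app U
    exact (Category.comp_id _).trans (Category.id_comp _).symm
  | h :: l, 0 => whisker_exchange (F.app (M h)) (opU F M U l)
  | h :: l, i + 1 => by
    change M h ◁ opU F M U l ≫ M h ◁ opZ F M U l i = M h ◁ opZ F M U l i ≫ M h ◁ opU F M U l
    rw [← MonoidalCategory.whiskerLeft_comp, ← MonoidalCategory.whiskerLeft_comp,
      FAZ_com F M U l i]

private lemma FAZ_kill (F : 𝟭 C ⟶ 𝟭 C) (M : ℤ[X] → C) (U : C) (P : ℚ[X])
    (hP : aeval (Mot.component F U) P = 0) : ∀ l : List ℤ[X],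
    aeval (show End (Zo M U l) from opU F M U l) P = 0
  | [] => hP
  | h :: l => by
    have h0 := FAZ_kill F M U P hP l
    have h1 := Polynomial.aeval_algHom_apply (PLZ_left (M h) (Zo M U l))
      (show End (Zo M U l) from opU F M U l) P
    rw [h0, map_zero] at h1
    exact h1

/-- the Frobenius of a square -/
theorem FAZ_sq (W : MotP.Frobenius C) (Y : C) (Q : ℚ[X]) :
    ev2 (Q.natDegree + 1) (fun i j => if i = j then Q.coeff i else 0) (opL W.F Y) (opR W.F Y) =
      (aeval (Mot.component W.F (Y ⊗ Y)) Q : End (Y ⊗ Y)) := by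
  have hc : Commute (opL W.F Y) (opR W.F Y) := by
    change (Y ◁ W.F.app Y) ≫ (W.F.app Y ▷ Y) = (W.F.app Y ▷ Y) ≫ (Y ◁ W.F.app Y)
    exact whisker_exchange (W.F.app Y) (W.F.app Y)
  have h2 : opL W.F Y * opR W.F Y = Mot.component W.F (Y ⊗ Y) := by
    change (Y ◁ W.F.app Y) ≫ (W.F.app Y ▷ Y) = W.F.app (Y ⊗ Y)
    have h1 : W.F.app (Y ⊗ Y) = W.F.app Y ⊗ₘ W.F.app Y := W.F_tensor Y Y
    rw [h1, MonoidalCategory.tensorHom_def']
    rfl
  rw [FAZ_ev2 Q _ _ hc, h2]

end

theorem t_FAZ : S_FAZ.{v, u} := by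
  intro C _ _ _ _ _ _ _ _ W q Y G₀ P₁ Q PU hq hsq hPY hthru hind hPq hPF hPT
  obtain ⟨m', s, r, hsr⟩ := FAZ_sum hthru
  have hsr' : ev2 (Q.natDegree + 1) (fun i j => if i = j then Q.coeff i else 0)
      (opL W.F Y) (opR W.F Y) = ∑ k, r k ≫ s k := by
    rw [FAZ_sq]
    exact hsr
  obtain ⟨M, hM⟩ : ∃ M : ℤ[X] → C, M = fun _ => Y := ⟨_, rfl⟩
  have hM0 : ∀ h, M h = Y := fun h => by rw [hM]
  have key : ∀ n : ℕ, ∀ U : C, PU U → Fac W (Zo (fun _ => Y) U (List.replicate n (0 : ℤ[X]))) := by
    intro n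
    induction n using Nat.strong_induction_on with
    | _ n ih =>
    intro U hU
    obtain ⟨N, hN, k, hk⟩ := hPq U hU
    rcases n with _ | n
    · exact hPF U hU
    · -- the inductive step
      rw [List.replicate_succ]
      obtain ⟨l, hl⟩ : ∃ l : List ℤ[X], l = List.replicate n 0 := ⟨_, rfl⟩
      have hln : l.length = n := by rw [hl, List.length_replicate]
      rw [← hl]
      have hq0 : (q : ℚ) ≠ 0 := by
        have : q ≠ 0 := by omega
        exact_mod_cast this
      intro A f hf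
      let φ₀ : Fin (l.length + 1) → Module.End ℚ (A ⟶ Zo (fun _ => Y) U ((0 : ℤ[X]) :: l)) :=
        fun i => (Linear.rightComp ℚ A (opZ W.F (fun _ => Y) U ((0 : ℤ[X]) :: l) (i : ℕ)))
      let φU : Module.End ℚ (A ⟶ Zo (fun _ => Y) U ((0 : ℤ[X]) :: l)) :=
        Linear.rightComp ℚ A (opU W.F (fun _ => Y) U ((0 : ℤ[X]) :: l))
      let P₀ : Fin (l.length + 1) → ℚ[X] := fun _ => P₁
      let PN : ℚ[X] := X ^ N - Polynomial.C (((q : ℚ) ^ k) ^ N)
      let φ : Fin (l.length + 1 + 1) → Module.End ℚ (A ⟶ Zo (fun _ => Y) U ((0 : ℤ[X]) :: l)) :=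
        Fin.snoc (α := fun _ => Module.End ℚ (A ⟶ Zo (fun _ => Y) U ((0 : ℤ[X]) :: l))) φ₀ φU
      let P : Fin (l.length + 1 + 1) → ℚ[X] := Fin.snoc (α := fun _ => ℚ[X]) P₀ PN
      have hφ1 : ∀ i : Fin (l.length + 1), φ i.castSucc = φ₀ i := fun i => Fin.snoc_castSucc _ _ _
      have hφ2 : φ (Fin.last _) = φU := Fin.snoc_last _ _
      have hP1 : ∀ i : Fin (l.length + 1), P i.castSucc = P₀ i := fun i => Fin.snoc_castSucc _ _ _
      have hP2 : P (Fin.last _) = PN := Fin.snoc_last _ _
      have hqk : ((q : ℚ) ^ k) ^ N ≠ 0 := pow_ne_zero _ (zpow_ne_zero k hq0)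
      have hJ : ∀ j : Fin (l.length + 1), j ∈ (Finset.univ.filter (fun j : Fin (l.length + 1) =>
          (j : ℕ) < l.length)) ↔ (j : ℕ) < l.length := fun j => by
        rw [Finset.mem_filter]
        exact ⟨fun hh => hh.2, fun hh => ⟨Finset.mem_univ _, hh⟩⟩
      have hcommZ : ∀ i j : ℕ, Commute
          (Linear.rightComp ℚ A (opZ W.F (fun _ => Y) U ((0 : ℤ[X]) :: l) i) :
            Module.End ℚ (A ⟶ Zo (fun _ => Y) U ((0 : ℤ[X]) :: l)))
          (Linear.rightComp ℚ A (opZ W.F (fun _ => Y) U ((0 : ℤ[X]) :: l) j)) := by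
        intro i j
        apply LinearMap.ext
        intro x
        change (x ≫ opZ W.F (fun _ => Y) U ((0 : ℤ[X]) :: l) j) ≫
            opZ W.F (fun _ => Y) U ((0 : ℤ[X]) :: l) i =
          (x ≫ opZ W.F (fun _ => Y) U ((0 : ℤ[X]) :: l) i) ≫
            opZ W.F (fun _ => Y) U ((0 : ℤ[X]) :: l) j
        rw [Category.assoc, Category.assoc, t_COM C W.F (fun _ => Y) U ((0 : ℤ[X]) :: l) j i]
      have hcommU : ∀ i : ℕ, Commute
          (Linear.rightComp ℚ A (opZ W.F (fun _ => Y) U ((0 : ℤ[X]) :: l) i) :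
            Module.End ℚ (A ⟶ Zo (fun _ => Y) U ((0 : ℤ[X]) :: l)))
          φU := by
        intro i
        apply LinearMap.ext
        intro x
        change (x ≫ opU W.F (fun _ => Y) U ((0 : ℤ[X]) :: l)) ≫
            opZ W.F (fun _ => Y) U ((0 : ℤ[X]) :: l) i =
          (x ≫ opZ W.F (fun _ => Y) U ((0 : ℤ[X]) :: l) i) ≫
            opU W.F (fun _ => Y) U ((0 : ℤ[X]) :: l)
        rw [Category.assoc, Category.assoc, FAZ_com]
      apply FAC_alg t_ALG (thru (𝟙_ C) A (Zo (fun _ => Y) U ((0 : ℤ[X]) :: l))) (l.length + 1) φ P 1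
        (Finset.univ.filter (fun j : Fin (l.length + 1) =>
          (j : ℕ) < l.length)) (Q.natDegree + 1) (fun i j => if i = j then Q.coeff i else 0) f
      · intro i
        refine Fin.lastCases ?_ (fun i => ?_) i
        · intro v hv
          rw [hφ2]
          exact FAC_post _ v hv
        · intro v hv
          rw [hφ1]
          exact FAC_post _ v hv
      · intro i j
        refine Fin.lastCases ?_ (fun i => ?_) i
        · refine Fin.lastCases ?_ (fun j => ?_) j
          · exact Commute.refl _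
          · rw [hφ1, hφ2]
            exact (hcommU j).symm
        · refine Fin.lastCases ?_ (fun j => ?_) j
          · rw [hφ1, hφ2]
            exact hcommU i
          · rw [hφ1, hφ1]
            exact hcommZ i j
      · intro i
        refine Fin.lastCases ?_ (fun i => ?_) i
        · rw [hP2]
          exact (Polynomial.separable_X_pow_sub_C _ (by exact_mod_cast (by omega : N ≠ 0))
            hqk).squarefree
        · rw [hP1]
          exact hsq
      · intro i
        refine Fin.lastCases ?_ (fun i => ?_) i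
        · rw [hP2, hφ2]
          have e0 : aeval (Mot.component W.F U) PN = 0 := by
            change aeval (Mot.component W.F U) (X ^ N - Polynomial.C (((q : ℚ) ^ k) ^ N)) = 0
            rw [map_sub, map_pow, aeval_X, aeval_C, hk, Algebra.algebraMap_eq_smul_one, sub_self]
          have e2 := FAZ_kill W.F (fun _ => Y) U PN e0 ((0 : ℤ[X]) :: l)
          have e3 := Polynomial.aeval_algHom_apply (PLZ_sec A (Zo (fun _ => Y) U ((0 : ℤ[X]) :: l)))
            (show End (Zo (fun _ => Y) U ((0 : ℤ[X]) :: l)) from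
              opU W.F (fun _ => Y) U ((0 : ℤ[X]) :: l)) PN
          rw [e2, map_zero] at e3
          exact e3
        · rw [hP1, hφ1]
          have e2 := PLZ_aux W.F (fun _ => Y) U P₁ ((0 : ℤ[X]) :: l) (i : ℕ) i.isLt hPY
          have e3 := Polynomial.aeval_algHom_apply (PLZ_sec A (Zo (fun _ => Y) U ((0 : ℤ[X]) :: l)))
            (show End (Zo (fun _ => Y) U ((0 : ℤ[X]) :: l)) from
              opZ W.F (fun _ => Y) U ((0 : ℤ[X]) :: l) (i : ℕ)) P₁
          rw [e2, map_zero] at e3
          exact e3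
      · -- independence
        intro α hα hprod
        have hαm : ∀ i : Fin (l.length + 1), aeval (α i.castSucc) P₁ = 0 := by
          intro i
          have h1 := hα i.castSucc
          rw [hP1] at h1
          exact h1
        have hγ : α (Fin.last _) ^ N = ((q : Qb) ^ k) ^ N := by
          have h1 := hα (Fin.last _)
          rw [hP2] at h1
          change aeval (α (Fin.last _)) (X ^ N - Polynomial.C (((q : ℚ) ^ k) ^ N)) = 0 at h1
          rw [map_sub, map_pow, aeval_X, aeval_C, sub_eq_zero] at h1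
          rw [h1, map_pow, map_zpow₀, map_natCast]
        obtain ⟨j, hj⟩ := hind l.length (fun i => α i.castSucc) hαm N (-k) hN (by
          rw [map_one, one_mul, Fin.prod_univ_castSucc] at hprod
          have h4 : (∏ i : Fin (l.length + 1), α i.castSucc) ^ N * ((q : Qb) ^ k) ^ N = 1 := by
            rw [← hγ, ← mul_pow, hprod, one_pow]
          rw [zpow_neg, inv_pow]
          exact eq_inv_of_mul_eq_one_left h4)
        refine ⟨j.castSucc, (hJ _).2 j.isLt, ?_⟩
        rw [FAZ_ev2 Q _ _ (Commute.all _ _)]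
        exact hj
      · rw [one_smul]
        have e1 : (List.ofFn φ).prod = (List.ofFn φ₀).prod * φU := by
          rw [List.ofFn_succ', List.concat_eq_append, List.prod_append, List.prod_singleton]
          congr 1
          · congr 1
            exact congrArg List.ofFn (funext hφ1)
        rw [e1]
        exact FAZ_prd W (fun _ => Y) U ((0 : ℤ[X]) :: l) A f hf
      · intro j hj
        have hjl := (hJ j).1 hj
        obtain ⟨π, hπ⟩ := t_MOV C W.F (fun _ => Y) U l (j : ℕ) hjl
        have hle : l.eraseIdx (j : ℕ) = List.replicate (n - 1) 0 := by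
          rw [List.eq_replicate_iff]
          refine ⟨?_, ?_⟩
          · rw [List.length_eraseIdx_of_lt hjl, hln]
          · intro x hx
            have h1 := List.mem_of_mem_eraseIdx hx
            rw [hl] at h1
            exact List.eq_of_mem_replicate h1
        have hT : Fac W (G₀ ⊗ Zo (fun _ => Y) U (l.eraseIdx (j : ℕ))) := by
          obtain ⟨i1⟩ := (t_WRD C (fun _ => Y) U (l.eraseIdx (j : ℕ))).1 G₀
          refine FAC_iso W i1 ?_
          refine Fac_dom W (P := Fac W) (fun _ h => h)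
            (INW_word PU (Fac W) (fun _ => Y) (l.eraseIdx (j : ℕ)) ?_ _ (hPT U hU))
          intro U' hU'
          rw [hle]
          refine ih (n - 1) (by omega) U' hU'
        have hφ0 : φ 0 = Linear.rightComp ℚ A (opZ W.F (fun _ => Y) U ((0 : ℤ[X]) :: l) 0) :=
          hφ1 0
        have hφj : φ j.succ =
            Linear.rightComp ℚ A (opZ W.F (fun _ => Y) U ((0 : ℤ[X]) :: l) ((j : ℕ) + 1)) := by
          have e1 : j.succ = (Fin.mk ((j : ℕ) + 1) (by omega) : Fin (l.length + 1)).castSucc :=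
            Fin.ext rfl
          rw [e1, hφ1]
        rw [hφ0, hφj]
        exact FAC_step W (fun _ => Y) U G₀ 0 l (j : ℕ) _ π hπ _ _ A f hf m' s r hsr' hT
  intro U hU m
  exact key m U hU

end

end Pool.Agent.WAF
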