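import Pool.Agent.WAF.St
import Pool.Agent.WAE.INW
import Pool.Agent.WAE.DOX

/-!
# Module INZ (MP_cb388a_ag, MP_6c4da4_ag): generated objects are dominated by words
-/

open CategoryTheory MonoidalCategory BraidedCategory Limits Polynomial

universe w v u

namespace Pool.Agent.WAF

open Pool.Agent.TJ2 Pool.Agent.WAV Pool.Agent.WAE

noncomputable section

section INZaux

variable {C : Type u} [Category.{v} C] [MonoidalCategory C]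

/-- a morphism on all the factors but the last of a word -/
def INZ_pw {Y V : C} (i : Y ⟶ V) (U : C) : (m : ℕ) → (Pw Y U m ⟶ Pw V U m)
  | 0 => 𝟙 U
  | m + 1 => i ⊗ₘ INZ_pw i U m

theorem INZ_pw_comp {Y V T : C} (i : Y ⟶ V) (p : V ⟶ T) (U : C) (m : ℕ) :
    INZ_pw i U m ≫ INZ_pw p U m = INZ_pw (i ≫ p) U m := by
  induction m with
  | zero => exact Category.id_comp _
  | succ m ih =>
    change (i ⊗ₘ INZ_pw i U m) ≫ (p ⊗ₘ INZ_pw p U m) = (i ≫ p) ⊗ₘ INZ_pw (i ≫ p) U m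
    rw [MonoidalCategory.tensorHom_comp_tensorHom, ih]

theorem INZ_pw_id (Y U : C) (m : ℕ) : INZ_pw (𝟙 Y) U m = 𝟙 (Pw Y U m) := by
  induction m with
  | zero => rfl
  | succ m ih =>
    change (𝟙 Y ⊗ₘ INZ_pw (𝟙 Y) U m) = 𝟙 (Y ⊗ Pw Y U m)
    rw [ih, MonoidalCategory.id_tensorHom_id]

end INZaux

/-- summands of dominated objects are dominated -/
theorem INZ_ret {C : Type u} [Category.{v} C] [Preadditive C] (P : C → Prop) (Z X : C)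
    (i : Z ⟶ X) (p : X ⟶ Z) (h : i ≫ p = 𝟙 Z) (hX : Dom P X) : Dom P Z := by
  obtain ⟨κ, _, Y, a, b, hP, e⟩ := hX
  refine ⟨κ, inferInstance, Y, fun k => i ≫ a k, fun k => b k ≫ p, hP, ?_⟩
  have h4 : ∀ k ∈ (Finset.univ : Finset κ), (i ≫ a k) ≫ (b k ≫ p) = i ≫ (a k ≫ b k) ≫ p :=
    fun k _ => by simp only [Category.assoc]
  rw [Finset.sum_congr rfl h4, ← Preadditive.comp_sum, ← Preadditive.sum_comp, e,
    Category.id_comp, h]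

theorem t_INZ (h1 : S_UZ1.{v, u}) (h2 : S_UZ2.{v, u}) (h3 : S_OSM.{v, u}) : S_INZ.{v, u} := by
  intro C _ _ _ _ _ _ _ _ W q D Λ hq
  obtain ⟨htr, hten, hgen⟩ := t_DOX C (D.WN Λ)
  obtain ⟨-, -, hu1, huT, huT', huL, hUiso⟩ := h1 C W q D hq
  obtain ⟨hmul, hdual, -⟩ := h2 C W q D hq
  have hiso : ∀ X Y, Nonempty (X ≅ Y) → D.WN Λ X → D.WN Λ Y := by
    rintro X Y ⟨i⟩ ⟨A, U, m, hU, hm, ⟨j⟩⟩
    exact ⟨A, U, m, hU, hm, ⟨i.symm ≪≫ j⟩⟩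
  have hnil : ∀ U, D.UN U → D.WN Λ U := fun U hU =>
    ⟨U, U, 0, hU, fun h => absurd h (by omega), ⟨Iso.refl _⟩⟩
  have hone : ∀ Y, D.Ab Y → (∀ z ∈ W.odd Y, Λ z) → ∀ U, D.UN U → D.WN Λ (Y ⊗ U) :=
    fun Y hY hz U hU => ⟨Y, U, 1, hU, fun _ => ⟨hY, hz⟩, ⟨Iso.refl _⟩⟩
  -- words
  have hword : ∀ (Y : C) (m : ℕ), (1 ≤ m → D.Ab Y ∧ ∀ z ∈ W.odd Y, Λ z) →
      ∀ V, Dom D.UN V → Dom (D.WN Λ) (Pw Y V m) := by
    intro Y m hm V hV
    refine INW_word D.UN (D.WN Λ) (fun _ => Y) (List.replicate m 0) ?_ V hV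
    intro U hU
    exact ⟨Y, U, m, hU, hm, ⟨Iso.refl _⟩⟩
  -- products
  have hmulW : ∀ X Y, D.WN Λ X → D.WN Λ Y → Dom (D.WN Λ) (X ⊗ Y) := by
    rintro X X' ⟨Y, U, m, hU, hm, ⟨i⟩⟩ ⟨Z, V, n, hV, hn, ⟨i'⟩⟩
    refine INW_iso _ _ _ (i ⊗ᵢ i').symm ?_
    rcases Nat.eq_zero_or_pos m with rfl | hm0
    · obtain ⟨h4, -, -⟩ := t_WRD C (fun _ => Z) V (List.replicate n 0)
      obtain ⟨j⟩ := h4 U
      exact INW_iso _ _ _ j.symm (hword Z n hn _ (hmul U V hU hV))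
    rcases Nat.eq_zero_or_pos n with rfl | hn0
    · obtain ⟨h4, -, -⟩ := t_WRD C (fun _ => Y) U (List.replicate m 0)
      obtain ⟨j⟩ := h4 V
      exact INW_iso _ _ _ ((β_ (Pw Y U m) V) ≪≫ j).symm (hword Y m hm _ (hmul V U hV hU))
    obtain ⟨hY, hYL⟩ := hm hm0
    obtain ⟨hZ, hZL⟩ := hn hn0
    obtain ⟨V₀, a, p, b, r, hV₀, e1, e2, e3⟩ := D.sum Y Z hY hZ
    have hodd : W.odd V₀ = W.odd Y + W.odd Z :=
      h3 C W Y Z V₀ a p b r (D.even Y hY) (D.even Z hZ) (D.even V₀ hV₀) e1 e2 e3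
    have hVL : ∀ z ∈ W.odd V₀, Λ z := by
      intro z hz
      rw [hodd] at hz
      rcases Multiset.mem_add.1 hz with hz | hz
      · exact hYL z hz
      · exact hZL z hz
    refine INZ_ret _ _ (Pw V₀ U m ⊗ Pw V₀ V n) (INZ_pw a U m ⊗ₘ INZ_pw b V n)
      (INZ_pw p U m ⊗ₘ INZ_pw r V n) ?_ ?_
    · rw [MonoidalCategory.tensorHom_comp_tensorHom, INZ_pw_comp, INZ_pw_comp, e1, e2, INZ_pw_id,
        INZ_pw_id, MonoidalCategory.id_tensorHom_id]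
    · obtain ⟨-, -, h4⟩ := t_WRD C (fun _ => V₀) U (List.replicate m 0)
      obtain ⟨j⟩ := h4 V (List.replicate n 0)
      refine INW_iso _ _ _ j.symm ?_
      have h5 := hword V₀ (m + n) (fun _ => ⟨hV₀, hVL⟩) _ (hmul U V hU hV)
      unfold Pw at h5
      rw [List.replicate_add] at h5
      exact h5
  have hMd : ∀ Y, D.Ab Y → (∀ z ∈ W.odd Y, Λ z) → D.WN Λ Yᘁ := by
    intro Y hY hz
    obtain ⟨p⟩ := D.pol Y hY
    obtain ⟨t⟩ := D.unitT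
    refine hiso _ _ ⟨?_⟩ (hone Y hY hz D.T' huT')
    exact whiskerRightIso p.symm D.T' ≪≫ α_ _ _ _ ≪≫ whiskerLeftIso _ t ≪≫ ρ_ _
  -- duals
  have hd : ∀ X, D.WN Λ X → Dom (D.WN Λ) Xᘁ := by
    rintro X ⟨Y, U, m, hU, hm, ⟨i⟩⟩
    obtain ⟨j⟩ := INW_dualCongr i
    refine INW_iso _ _ _ j.symm ?_
    clear i j
    induction m with
    | zero => exact INW_base _ _ (hnil _ (hdual U hU))
    | succ m ih =>
      obtain ⟨hY, hz⟩ := hm (by omega)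
      have h5 := ih fun _ => ⟨hY, hz⟩
      exact INW_iso _ _ _ (rightDualTensorIso Y (Pw Y U m)).symm
        (hten hmulW _ _ h5 (INW_base _ _ (hMd Y hY hz)))
  refine hgen (D.Gn Λ) (INW_base _ _ (hnil _ hu1)) hmulW hd ?_
  rintro Y (rfl | ⟨N, hN, rfl⟩ | ⟨hY, hz⟩)
  · exact INW_base _ _ (hnil _ huT)
  · exact INW_base _ _ (hnil _ (huL N hN))
  · exact INW_base _ _ (hiso _ _ ⟨ρ_ Y⟩ (hone Y hY hz _ hu1))

end

end Pool.Agent.WAF
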