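import Pool.Agent.WAF.St
import Pool.Agent.TJ2.IDT
import Pool.Agent.TJ2.KEB
import Pool.Agent.TJ2.MON

/-!
# Module KE1 of block WAF: the key identity (helper85)

The part of `Y ⊗ Y` where Frobenius is `q` is a sum of copies of `T`.  Adapts `WAE/KEX.lean`.
-/

open CategoryTheory MonoidalCategory BraidedCategory Limits Polynomial

universe w v u

namespace Pool.Agent.WAF

open Pool.Agent.TJ2 Pool.Agent.TJ3 Pool.Agent.WAV Pool.Agent.WAE

noncomputable section

section Alg

variable {A B : Type*} [Ring A] [Algebra ℚ A] [Ring B] [Algebra ℚ B]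

private theorem KE1_hom (f : A →ₐ[ℚ] B) (n : ℕ) (G : ℕ → ℕ → ℚ) (a b : A) :
    ev2 n G (f a) (f b) = f (ev2 n G a b) := by
  simp only [ev2, map_sum, map_smul, map_mul, map_pow]

/-- the diagonal array of a polynomial -/
private def KE1_G (H : ℚ[X]) : ℕ → ℕ → ℚ := fun i j => if i = j then H.coeff i else 0

private theorem KE1_ev (H : ℚ[X]) {a b : A} (hab : Commute a b) :
    ev2 (H.natDegree + 1) (KE1_G H) a b = aeval (a * b) H := by
  unfold ev2 KE1_G
  rw [aeval_eq_sum_range]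
  refine Finset.sum_congr rfl fun i hi => ?_
  rw [Finset.sum_eq_single i]
  · rw [if_pos rfl, hab.mul_pow]
  · intro j _ hj
    rw [if_neg (Ne.symm hj), zero_smul]
  · intro h
    exact absurd hi h

private theorem KE1_zero (n : ℕ) (a b : A) : ev2 n (fun _ _ => (0 : ℚ)) a b = 0 := by
  unfold ev2
  simp

/-- a polynomial which vanishes at the products of the roots of `P` kills `a b` -/
private theorem KE1_kill (hIDT : S_IDT.{v}) {A : Type v} [Ring A] [Algebra ℚ A] {a b : A}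
    (hab : Commute a b) {P : ℚ[X]} (hP : Squarefree P) (ha : aeval a P = 0) (hb : aeval b P = 0)
    {H : ℚ[X]} (hH : ∀ α β : Qb, aeval α P = 0 → aeval β P = 0 → aeval (α * β) H = 0) :
    aeval (a * b) H = 0 := by
  have h := hIDT A (Algebra.lmul ℚ A a) (Algebra.lmul ℚ A b) P (H.natDegree + 1)
    (fun _ _ => (0 : ℚ)) (KE1_G H) (1 : A) (hab.map (Algebra.lmul ℚ A)) hP
    (by rw [aeval_algHom_apply, ha, map_zero]) (by rw [aeval_algHom_apply, hb, map_zero])
    (fun α β hα hβ _ => by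
      rw [KE1_ev H (Commute.all α β)]
      exact hH α β hα hβ)
    (by rw [KE1_zero, LinearMap.zero_apply])
  rw [KE1_hom (Algebra.lmul ℚ A), KE1_ev H hab] at h
  simpa using h

end Alg

private theorem KE1_alg : Algebra.IsAlgebraic ℚ Qb := by
  refine ⟨fun x => ?_⟩
  obtain ⟨p, hp, hx⟩ := @Algebra.IsAlgebraic.isAlgebraic ℚ Qb _ _
    (AlgebraicClosure.instAlgebra ℚ) (AlgebraicClosure.isAlgebraic ℚ) x
  refine ⟨p, hp, ?_⟩
  have e : (AlgebraicClosure.instAlgebra ℚ : Algebra ℚ (AlgebraicClosure ℚ)) =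
      DivisionRing.toRatAlgebra := Subsingleton.elim _ _
  rw [← hx, e]

section Cat

variable {C : Type u} [Category.{v} C] [Preadditive C] [Linear ℚ C] [MonoidalCategory C]
  [SymmetricCategory C] [MonoidalPreadditive C] [MonoidalLinear ℚ C] [RightRigidCategory C]

/-- `f ↦ f ⊗ 1` -/
private def KE1_wR (X : C) : End X →ₐ[ℚ] End (X ⊗ X) where
  toFun f := (f : X ⟶ X) ▷ X
  map_one' := by exact id_whiskerRight X X
  map_mul' f g := by exact comp_whiskerRight (g : X ⟶ X) (f : X ⟶ X) X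
  map_zero' := by exact MonoidalPreadditive.zero_whiskerRight
  map_add' f g := by exact MonoidalPreadditive.add_whiskerRight (f : X ⟶ X) (g : X ⟶ X)
  commutes' r := by
    rw [Algebra.algebraMap_eq_smul_one, Algebra.algebraMap_eq_smul_one]
    change (r • 𝟙 X) ▷ X = r • 𝟙 (X ⊗ X)
    rw [MonoidalLinear.smul_whiskerRight, id_whiskerRight]

/-- `f ↦ 1 ⊗ f` -/
private def KE1_wL (X : C) : End X →ₐ[ℚ] End (X ⊗ X) where
  toFun f := X ◁ (f : X ⟶ X)
  map_one' := by exact MonoidalCategory.whiskerLeft_id X X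
  map_mul' f g := by exact MonoidalCategory.whiskerLeft_comp X (g : X ⟶ X) (f : X ⟶ X)
  map_zero' := by exact MonoidalPreadditive.whiskerLeft_zero
  map_add' f g := by exact MonoidalPreadditive.whiskerLeft_add (f : X ⟶ X) (g : X ⟶ X)
  commutes' r := by
    rw [Algebra.algebraMap_eq_smul_one, Algebra.algebraMap_eq_smul_one]
    change X ◁ (r • 𝟙 X) = r • 𝟙 (X ⊗ X)
    rw [MonoidalLinear.whiskerLeft_smul, MonoidalCategory.whiskerLeft_id]

/-- the trace as a linear map -/
private def KE1_tr (Y : C) : (Y ⟶ Y) →ₗ[ℚ] (𝟙_ C ⟶ 𝟙_ C) where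
  toFun f := Mot.trace f
  map_add' f g := by
    unfold Mot.trace
    rw [MonoidalPreadditive.add_whiskerRight, Preadditive.add_comp, Preadditive.comp_add]
  map_smul' r f := by
    unfold Mot.trace
    rw [MonoidalLinear.smul_whiskerRight, Linear.smul_comp, Linear.comp_smul]
    rfl

private theorem KE1_comm (W : MotP.Frobenius C) (Y : C) : Commute (opL W.F Y) (opR W.F Y) := by
  change Y ◁ W.F.app Y ≫ W.F.app Y ▷ Y = W.F.app Y ▷ Y ≫ Y ◁ W.F.app Y
  exact (whisker_exchange (W.F.app Y) (W.F.app Y))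

/-- `F` on `Y ⊗ Y` -/
private theorem KE1_prod (W : MotP.Frobenius C) (Y : C) :
    (opL W.F Y * opR W.F Y : End (Y ⊗ Y)) = Mot.component W.F (Y ⊗ Y) := by
  rw [(KE1_comm W Y).eq]
  have h := W.F_tensor Y Y
  rw [MonoidalCategory.tensorHom_def] at h
  exact h.symm

/-- the endomorphisms of `T` are the rational multiples of the identity -/
private theorem KE1_scalar (W : MotP.Frobenius C) {T T' : C} (i : T ⊗ T' ≅ 𝟙_ C) (f : T ⟶ T) :
    ∃ r : ℚ, f = r • 𝟙 T := by
  let j : T' ⊗ T ≅ 𝟙_ C := (β_ T' T) ≪≫ i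
  obtain ⟨r, hr⟩ := W.scalar (j.inv ≫ (T' ◁ f) ≫ j.hom)
  refine ⟨r, MON_faithful i _ _ ?_⟩
  have h1 : T' ◁ f = j.hom ≫ (j.inv ≫ (T' ◁ f) ≫ j.hom) ≫ j.inv := by simp
  rw [h1, hr, MonoidalLinear.whiskerLeft_smul, whiskerLeft_id, Linear.smul_comp, Linear.comp_smul,
    Category.id_comp, j.hom_inv_id]

/-- the scalar of an endomorphism -/
private theorem KE1_sc (A : C) (h : ∀ f : A ⟶ A, ∃ r : ℚ, f = r • 𝟙 A) (h0 : 𝟙 A ≠ 0) :
    ∃ φ : (A ⟶ A) →ₗ[ℚ] ℚ, ∀ f, f = φ f • 𝟙 A := by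
  choose φ hφ using h
  have huniq : ∀ a b : ℚ, a • 𝟙 A = b • 𝟙 A → a = b := by
    intro a b hab
    have h1 : (a - b) • 𝟙 A = 0 := by rw [sub_smul, hab, sub_self]
    rcases smul_eq_zero.1 h1 with h2 | h2
    · exact sub_eq_zero.1 h2
    · exact absurd h2 h0
  refine ⟨{ toFun := φ, map_add' := fun f g => ?_, map_smul' := fun r f => ?_ }, hφ⟩
  · apply huniq
    rw [← hφ, add_smul, ← hφ f, ← hφ g]
  · apply huniq
    rw [← hφ, RingHom.id_apply, smul_eq_mul, mul_smul, ← hφ f]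

end Cat

theorem t_KE1 (hDUF : S_DUF.{v}) (hTRF : S_TRF.{v, u}) : S_KE1.{v, u} := by
  classical
  intro C _ _ _ _ _ _ _ _ W q D hq Y hY Q hQq hQ0
  obtain ⟨P, hP, hroot, hPodd⟩ := D.semi Y hY
  obtain ⟨hb1, hb2, hb3⟩ := t_KEB C W Y D.T
  have halg := KE1_alg
  let ι : Qb →ₐ[ℚ] ℂ := IsAlgClosed.lift
  set E : Y ⊗ Y ⟶ Y ⊗ Y :=
    ((aeval (Mot.component W.F (Y ⊗ Y)) Q : End (Y ⊗ Y)) : Y ⊗ Y ⟶ Y ⊗ Y) with hE
  have hL : aeval (opL W.F Y) P = 0 := by
    have := aeval_algHom_apply (KE1_wR Y) (Mot.component W.F Y) P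
    rw [hroot, map_zero] at this
    exact this
  have hR : aeval (opR W.F Y) P = 0 := by
    have := aeval_algHom_apply (KE1_wL Y) (Mot.component W.F Y) P
    rw [hroot, map_zero] at this
    exact this
  -- `E` is idempotent
  have hEE : E ≫ E = E := by
    have h1 := KE1_kill t_IDT (KE1_comm W Y) hP hL hR (H := Q ^ 2 - Q) (fun α β hα hβ => by
      have hα' : ι α ∈ W.odd Y := by
        rw [← hPodd, aeval_algHom_apply, hα, map_zero]
      have hβ' : ι β ∈ W.odd Y := by
        rw [← hPodd, aeval_algHom_apply, hβ, map_zero]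
      by_cases h : ι α * ι β = (q : ℂ)
      · have h2 : α * β = algebraMap ℚ Qb (q : ℚ) := by
          apply ι.injective
          change ι (α * β) = ι (algebraMap ℚ Qb (q : ℚ))
          rw [map_mul, h, AlgHom.commutes]
          simp
        rw [h2, aeval_algebraMap_apply]
        have h3 : aeval (q : ℚ) (Q ^ 2 - Q) = 0 := by
          rw [coe_aeval_eq_eval, eval_sub, eval_pow, hQq]
          norm_num
        rw [h3, map_zero]
      · have h2 := hQ0 _ hα' _ hβ' h
        rw [← map_mul, aeval_algHom_apply] at h2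
        have h3 : aeval (α * β) Q = 0 := ι.injective (by
          change ι (aeval (α * β) Q) = ι 0
          rw [h2, map_zero])
        rw [map_sub, map_pow, h3]
        ring)
    rw [KE1_prod, map_sub, map_pow, sub_eq_zero, pow_two] at h1
    exact h1
  -- composition with `T`
  have hTq : ((aeval (Mot.component W.F D.T) Q : End D.T) : D.T ⟶ D.T) = 𝟙 D.T := by
    have h1 : (Mot.component W.F D.T : End D.T) = algebraMap ℚ (End D.T) (q : ℚ) := by
      rw [Algebra.algebraMap_eq_smul_one]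
      exact D.frobT
    rw [h1, aeval_algebraMap_apply, coe_aeval_eq_eval, hQq, map_one]
    rfl
  have hs : ∀ s : D.T ⟶ Y ⊗ Y, s ≫ E = s := by
    intro s
    have h1 := aeval_nat W s Q
    rw [hTq, Category.id_comp] at h1
    exact h1.symm
  have hr : ∀ r : Y ⊗ Y ⟶ D.T, E ≫ r = r := by
    intro r
    have h1 := aeval_nat W r Q
    rw [hTq, Category.comp_id] at h1
    exact h1
  -- the trace of `E`
  set N : ℕ := nPairs q (W.odd Y) with hN
  have htr : Mot.trace E = (N : ℚ) • 𝟙 (𝟙_ C) := by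
    obtain ⟨r, hr⟩ := W.scalar (Mot.trace E)
    have h1 := (hTRF C W Y Y Q r).2 (D.even Y hY) (D.even Y hY) hr
    have h2 : (W.odd Y ×ˢ W.odd Y).map (fun x => aeval (x.1 * x.2) Q) =
        (W.odd Y ×ˢ W.odd Y).map (fun x => if x.1 * x.2 = (q : ℂ) then (1 : ℂ) else 0) := by
      refine Multiset.map_congr rfl fun x hx => ?_
      rw [Multiset.mem_product] at hx
      by_cases h : x.1 * x.2 = (q : ℂ)
      · rw [if_pos h, h]
        have h3 : (q : ℂ) = algebraMap ℚ ℂ (q : ℚ) := by simp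
        rw [h3, aeval_algebraMap_apply, coe_aeval_eq_eval, hQq, map_one]
      · rw [if_neg h]
        exact hQ0 _ hx.1 _ hx.2 h
    rw [h2] at h1
    have h3 : ((W.odd Y ×ˢ W.odd Y).map
        (fun x => if x.1 * x.2 = (q : ℂ) then (1 : ℂ) else 0)).sum = (N : ℂ) := by
      rw [hN]
      unfold nPairs
      generalize (W.odd Y ×ˢ W.odd Y) = t
      induction t using Multiset.induction_on with
      | empty => simp
      | cons x t ih =>
        rw [Multiset.map_cons, Multiset.sum_cons, ih, Multiset.filter_cons]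
        by_cases h : x.1 * x.2 = (q : ℂ)
        · rw [if_pos h, if_pos h, Multiset.card_add, Multiset.card_singleton]
          push_cast
          ring
        · rw [if_neg h, if_neg h, zero_add]
          simp
    rw [h3] at h1
    have h4 : r = (N : ℚ) := by exact_mod_cast h1
    rw [hr, h4]
  by_cases hN0 : N = 0
  · have h1 : E = 0 := D.kim Y hY E hEE (by rw [htr, hN0]; simp)
    rw [h1]
    exact Submodule.zero_mem _
  -- `T` has dimension one
  obtain ⟨iT⟩ := D.unitT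
  have hne : Mot.trace (𝟙 Y) ≠ 0 := by
    intro h0
    have h1 : Mot.trace (Mot.component W.F Y ^ 0) = (0 : ℚ) • 𝟙 (𝟙_ C) := by
      rw [zero_smul]
      exact h0
    have h2 := W.trace_formula Y 0 0 h1
    rw [D.even Y hY] at h2
    simp only [pow_zero, Multiset.map_zero, Multiset.sum_zero, Multiset.map_const',
      Multiset.sum_replicate, nsmul_eq_mul, mul_one, zero_sub, Rat.cast_zero] at h2
    have h3 : Multiset.card (W.odd Y) = 0 := by
      have h4 : ((Multiset.card (W.odd Y) : ℕ) : ℂ) = 0 := neg_eq_zero.1 h2.symm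
      exact_mod_cast h4
    rw [Multiset.card_eq_zero] at h3
    apply hN0
    rw [hN]
    unfold nPairs
    rw [h3]
    simp
  have hT1 : Mot.trace (𝟙 D.T) = 𝟙 (𝟙_ C) := hb3 (D.pol Y hY) hne
  have hT0 : 𝟙 D.T ≠ 0 := by
    intro h0
    rw [h0] at hT1
    have h1 : Mot.trace (0 : D.T ⟶ D.T) = 0 := (KE1_tr D.T).map_zero
    rw [h1] at hT1
    exact W.unit_ne hT1.symm
  obtain ⟨φ, hφ⟩ := KE1_sc D.T (fun f => KE1_scalar W iT f) hT0
  -- the bilinear form
  let B : (D.T ⟶ Y ⊗ Y) →ₗ[ℚ] (Y ⊗ Y ⟶ D.T) →ₗ[ℚ] ℚ :=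
    LinearMap.mk₂ ℚ (fun s r => φ (s ≫ r))
      (fun s s' r => by rw [Preadditive.add_comp, map_add])
      (fun c s r => by rw [Linear.smul_comp, map_smul])
      (fun s r r' => by rw [Preadditive.comp_add, map_add])
      (fun c s r => by rw [Linear.comp_smul, map_smul])
  have hB : ∀ s r, s ≫ r = B s r • 𝟙 D.T := fun s r => hφ (s ≫ r)
  obtain ⟨s', r', hsr⟩ := hDUF _ _ B (fun s h => D.num Y hY s fun r => by
    rw [hB s r, h r, zero_smul]) N (D.tate Y hY)
  have hsr' : ∀ i k, s' i ≫ r' k = (if i = k then (1 : ℚ) else 0) • 𝟙 D.T := by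
    intro i k
    rw [hB, hsr]
  let e : Y ⊗ Y ⟶ Y ⊗ Y := ∑ k, r' k ≫ s' k
  have he2 : e ≫ e = e := by
    change (∑ k, r' k ≫ s' k) ≫ (∑ k, r' k ≫ s' k) = ∑ k, r' k ≫ s' k
    rw [Preadditive.sum_comp]
    refine Finset.sum_congr rfl fun i _ => ?_
    rw [Preadditive.comp_sum, Finset.sum_eq_single i]
    · rw [Category.assoc, ← Category.assoc (s' i), hsr', if_pos rfl, one_smul, Category.id_comp]
    · intro k _ hk
      rw [Category.assoc, ← Category.assoc (s' i), hsr', if_neg (Ne.symm hk), zero_smul,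
        Limits.zero_comp, Limits.comp_zero]
    · intro h
      exact absurd (Finset.mem_univ i) h
  have htre : Mot.trace e = (N : ℚ) • 𝟙 (𝟙_ C) := by
    change KE1_tr (Y ⊗ Y) (∑ k, r' k ≫ s' k) = _
    rw [map_sum]
    have h1 : ∀ k : Fin N, KE1_tr (Y ⊗ Y) (r' k ≫ s' k) = 𝟙 (𝟙_ C) := by
      intro k
      change Mot.trace (r' k ≫ s' k) = _
      rw [hb2, hsr', if_pos rfl, one_smul, hT1]
    rw [Finset.sum_congr rfl fun k _ => h1 k, Finset.sum_const, Finset.card_univ,
      Fintype.card_fin, Nat.cast_smul_eq_nsmul]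
  have heD : e ≫ E = e := by
    change (∑ k, r' k ≫ s' k) ≫ E = ∑ k, r' k ≫ s' k
    rw [Preadditive.sum_comp]
    exact Finset.sum_congr rfl fun k _ => by rw [Category.assoc, hs]
  have hDe : E ≫ e = e := by
    change E ≫ (∑ k, r' k ≫ s' k) = ∑ k, r' k ≫ s' k
    rw [Preadditive.comp_sum]
    exact Finset.sum_congr rfl fun k _ => by rw [← Category.assoc, hr]
  have hk := D.kim Y hY (E - e) (by
    rw [Preadditive.comp_sub, Preadditive.sub_comp, Preadditive.sub_comp, hEE, heD, hDe, he2]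
    abel) (by
    change KE1_tr (Y ⊗ Y) (E - e) = 0
    rw [map_sub]
    change Mot.trace E - Mot.trace e = 0
    rw [htr, htre, sub_self])
  have hEe : E = ∑ k, r' k ≫ s' k := sub_eq_zero.1 hk
  rw [hEe]
  exact Submodule.sum_mem _ fun k _ => Submodule.subset_span ⟨r' k, s' k, rfl⟩

end

end Pool.Agent.WAF
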