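import Pool.Agent.WAF.St
import Pool.Agent.TJ2.KEB
import Pool.Agent.WAV.PRJ

/-!
# Module KEM: the part of `Y ⊗ Y` where a power of Frobenius is a power of `q` (MP_cb388a_ag)
-/

open CategoryTheory MonoidalCategory BraidedCategory Limits Polynomial

universe w v u

namespace Pool.Agent.WAF

open Pool.Agent.TJ2 Pool.Agent.TJ3 Pool.Agent.WAV Pool.Agent.WAE

noncomputable section

set_option linter.unusedSectionVars false

section Cat

variable {C : Type u} [Category.{v} C] [Preadditive C] [Linear ℚ C] [MonoidalCategory C]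
  [SymmetricCategory C] [MonoidalPreadditive C] [MonoidalLinear ℚ C] [RightRigidCategory C]

/-- the geometric sum over the roots of unity -/
private theorem KEM_geom {M : ℕ} {ζ : ℂ} (h : ζ ^ M = 1) (h1 : ζ ≠ 1) :
    ∑ i ∈ Finset.range M, ζ ^ i = 0 := by
  have h2 := geom_sum_mul ζ M
  rw [h, sub_self] at h2
  exact (mul_eq_zero.1 h2).resolve_right (sub_ne_zero.2 h1)

/-- the trace as a linear map -/
private def KEM_tr (X : C) : (X ⟶ X) →ₗ[ℚ] (𝟙_ C ⟶ 𝟙_ C) where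
  toFun f := Mot.trace f
  map_add' f g := by
    unfold Mot.trace
    rw [MonoidalPreadditive.add_whiskerRight, Preadditive.add_comp, Preadditive.comp_add]
  map_smul' r f := by
    unfold Mot.trace
    rw [MonoidalLinear.smul_whiskerRight, Linear.smul_comp, Linear.comp_smul]
    rfl

/-- powers of the Frobenius of a product -/
private theorem KEM_pow (W : MotP.Frobenius C) (X Y : C) (j : ℕ) :
    ((Mot.component W.F (X ⊗ Y) ^ j : End (X ⊗ Y)) : X ⊗ Y ⟶ X ⊗ Y) =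
      ((Mot.component W.F X ^ j : End X) : X ⟶ X) ⊗ₘ
        ((Mot.component W.F Y ^ j : End Y) : Y ⟶ Y) := by
  induction j with
  | zero =>
    rw [pow_zero, pow_zero, pow_zero]
    exact (id_tensorHom_id X Y).symm
  | succ j ih =>
    rw [pow_succ, pow_succ, pow_succ]
    change W.F.app (X ⊗ Y) ≫ ((Mot.component W.F (X ⊗ Y) ^ j : End (X ⊗ Y)) : X ⊗ Y ⟶ X ⊗ Y) =
      (W.F.app X ≫ ((Mot.component W.F X ^ j : End X) : X ⟶ X)) ⊗ₘ
        (W.F.app Y ≫ ((Mot.component W.F Y ^ j : End Y) : Y ⟶ Y))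
    rw [ih, W.F_tensor]
    exact MonoidalCategory.tensorHom_comp_tensorHom _ _ _ _

/-- `thru` for isomorphic objects -/
private theorem KEM_thru {L L' T G : C} (e : L' ≅ L) {x : G ⟶ G} (hx : x ∈ thru (L' ⊗ T) G G) :
    x ∈ thru (L ⊗ T) G G := by
  induction hx using Submodule.span_induction with
  | mem x h =>
    obtain ⟨r, s, rfl⟩ := h
    refine Submodule.subset_span ⟨r ≫ e.hom ▷ T, e.inv ▷ T ≫ s, ?_⟩
    rw [Category.assoc, hom_inv_whiskerRight_assoc]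
  | zero => exact Submodule.zero_mem _
  | add a b _ _ ha hb => exact Submodule.add_mem _ ha hb
  | smul r a _ ha => exact Submodule.smul_mem _ r ha

/-- `L ⊗ (Y ⊗ Y)` is a direct summand of `(L ⊗ Y) ⊗ (L ⊗ Y)` -/
private theorem KEM_summand {L Y : C} (i : 𝟙_ C ⟶ L) (p : L ⟶ 𝟙_ C) (h : i ≫ p = 𝟙 (𝟙_ C)) :
    ∃ (ι : L ⊗ (Y ⊗ Y) ⟶ (L ⊗ Y) ⊗ (L ⊗ Y)) (π : (L ⊗ Y) ⊗ (L ⊗ Y) ⟶ L ⊗ (Y ⊗ Y)),
      ι ≫ π = 𝟙 (L ⊗ (Y ⊗ Y)) := by
  refine ⟨(α_ L Y Y).inv ≫ (L ⊗ Y) ◁ ((λ_ Y).inv ≫ i ▷ Y),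
    (L ⊗ Y) ◁ (p ▷ Y ≫ (λ_ Y).hom) ≫ (α_ L Y Y).hom, ?_⟩
  have h1 : ((λ_ Y).inv ≫ i ▷ Y) ≫ (p ▷ Y ≫ (λ_ Y).hom) = 𝟙 Y := by
    rw [Category.assoc, ← Category.assoc (i ▷ Y), ← comp_whiskerRight, h, id_whiskerRight,
      Category.id_comp, Iso.inv_hom_id]
  rw [Category.assoc, ← Category.assoc ((L ⊗ Y) ◁ _), ← MonoidalCategory.whiskerLeft_comp, h1,
    MonoidalCategory.whiskerLeft_id, Category.id_comp, Iso.inv_hom_id]

end Cat

/-- the part of `Y ⊗ Y` where `F ^ M = q ^ M` -/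
theorem t_KEM (hPOL : S_POL) (hOLY : S_OLY.{v, u}) (hKE1 : S_KE1.{v, u}) (hPTR : S_PTR.{v, u})
    (_hTRF : S_TRF.{v, u}) : S_KEM.{v, u} := by
  classical
  intro C _ _ _ _ _ _ _ _ W q D hq Y hY M hM
  have hV : D.Ab (D.L M ⊗ Y) := D.res Y hY M hM
  -- the polynomial for `L M ⊗ Y`
  obtain ⟨P, hPsf, -, hPr⟩ := D.semi _ hV
  obtain ⟨Q₁, hQ1, hQ0⟩ := hPOL q (W.odd (D.L M ⊗ Y))
    (fun z hz => ⟨P, hPsf.ne_zero, (hPr z).2 hz⟩)
  have hK := hKE1 C W q D hq _ hV Q₁ hQ1 hQ0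
  -- the roots of unity
  have hM0 : M ≠ 0 := by omega
  have hev : W.even (D.L M) = Polynomial.nthRoots M (1 : ℂ) := by
    rw [D.evenL M hM]
    unfold Polynomial.nthRoots Polynomial.aroots
    congr 1
    rw [Polynomial.map_sub, Polynomial.map_pow, Polynomial.map_X, Polynomial.map_one,
      Polynomial.C_1]
  obtain ⟨Z, hZ⟩ : ∃ Z : Finset ℂ, Z.val = Polynomial.nthRoots M (1 : ℂ) :=
    ⟨⟨_, (Complex.isPrimitiveRoot_exp M hM0).nthRoots_one_nodup⟩, rfl⟩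
  have hmem : ∀ ζ : ℂ, ζ ∈ Z ↔ ζ ^ M = 1 := by
    intro ζ
    rw [← Finset.mem_val, hZ]
    exact Polynomial.mem_nthRoots hM
  -- the traces
  choose t ht using fun j : ℕ => W.scalar (Mot.trace
    ((Mot.component W.F (D.L M) ^ j : End (D.L M)) : D.L M ⟶ D.L M))
  have htc : ∀ j, (t j : ℂ) = ∑ ζ ∈ Z, ζ ^ j := by
    intro j
    have h := W.trace_formula (D.L M) j (t j) (ht j)
    rw [D.oddL M hM, hev, ← hZ] at h
    rw [h, Multiset.map_zero, Multiset.sum_zero, sub_zero]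
    rfl
  -- the unit is a direct summand of `L M`
  obtain ⟨r, s, hrs⟩ := D.sumL M hM
  obtain ⟨c, hc⟩ := W.scalar (s ≫ r)
  have hc0 : c ≠ 0 := by
    intro h0
    rw [h0, zero_smul] at hc
    have h1 : Mot.trace (r ≫ s : D.L M ⟶ D.L M) = 0 := by
      rw [KEB_comm, hc]
      exact (KEM_tr (𝟙_ C)).map_zero
    have h2 : Mot.trace (r ≫ s : D.L M ⟶ D.L M) = (∑ i ∈ Finset.range M, t i) • 𝟙 (𝟙_ C) := by
      rw [← hrs]
      change KEM_tr (D.L M) (∑ i ∈ Finset.range M,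
        ((Mot.component W.F (D.L M) ^ i : End (D.L M)) : D.L M ⟶ D.L M)) = _
      rw [map_sum, Finset.sum_smul]
      exact Finset.sum_congr rfl fun i _ => ht i
    have h3 : ∑ i ∈ Finset.range M, t i = 0 := by
      rw [h1] at h2
      exact (smul_eq_zero.1 h2.symm).resolve_right W.unit_ne
    have h4 : ((∑ i ∈ Finset.range M, t i : ℚ) : ℂ) = M := by
      push_cast
      simp only [htc]
      rw [Finset.sum_comm, Finset.sum_eq_single_of_mem (1 : ℂ) ((hmem 1).2 (one_pow M))]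
      · simp
      · intro ζ hζ hne
        exact KEM_geom ((hmem ζ).1 hζ) hne
    rw [h3, Rat.cast_zero] at h4
    exact hM0 (by exact_mod_cast h4.symm)
  obtain ⟨ι, π, hιπ⟩ := KEM_summand (Y := Y) s (c⁻¹ • r) (by
    rw [Linear.comp_smul, hc, smul_smul, inv_mul_cancel₀ hc0, one_smul])
  have hE : ((aeval (Mot.component W.F (D.L M ⊗ (Y ⊗ Y))) Q₁ : End (D.L M ⊗ (Y ⊗ Y))) :
      D.L M ⊗ (Y ⊗ Y) ⟶ D.L M ⊗ (Y ⊗ Y)) ∈ thru D.T _ _ := by
    have h1 : ((aeval (Mot.component W.F (D.L M ⊗ (Y ⊗ Y))) Q₁ : End (D.L M ⊗ (Y ⊗ Y))) :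
        D.L M ⊗ (Y ⊗ Y) ⟶ D.L M ⊗ (Y ⊗ Y)) = ι ≫
        ((aeval (Mot.component W.F ((D.L M ⊗ Y) ⊗ (D.L M ⊗ Y))) Q₁ : End _) :
          (D.L M ⊗ Y) ⊗ (D.L M ⊗ Y) ⟶ (D.L M ⊗ Y) ⊗ (D.L M ⊗ Y)) ≫ π := by
      rw [← Category.assoc, ← aeval_nat, Category.assoc, hιπ, Category.comp_id]
    rw [h1]
    exact thru_left _ (thru_right _ hK)
  -- the partial trace
  obtain ⟨τ, hτ1, hτ2⟩ := hPTR C (D.L M) (Y ⊗ Y) D.T
  obtain ⟨Q, hQdef⟩ : ∃ Q : ℚ[X], Q = ∑ j ∈ Finset.range (Q₁.natDegree + 1),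
    Polynomial.C (Q₁.coeff j * t j) * X ^ j := ⟨_, rfl⟩
  have hτE : τ ((aeval (Mot.component W.F (D.L M ⊗ (Y ⊗ Y))) Q₁ : End (D.L M ⊗ (Y ⊗ Y))) :
      D.L M ⊗ (Y ⊗ Y) ⟶ D.L M ⊗ (Y ⊗ Y)) =
      ((aeval (Mot.component W.F (Y ⊗ Y)) Q : End (Y ⊗ Y)) : Y ⊗ Y ⟶ Y ⊗ Y) := by
    rw [aeval_eq_sum_range, hQdef, map_sum (aeval (Mot.component W.F (Y ⊗ Y)))]
    change τ (∑ j ∈ Finset.range (Q₁.natDegree + 1), Q₁.coeff j •
      ((Mot.component W.F (D.L M ⊗ (Y ⊗ Y)) ^ j : End (D.L M ⊗ (Y ⊗ Y))) :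
        D.L M ⊗ (Y ⊗ Y) ⟶ D.L M ⊗ (Y ⊗ Y))) = _
    rw [map_sum]
    refine Finset.sum_congr rfl fun j _ => ?_
    rw [map_smul, KEM_pow, hτ1 _ _ _ (ht j), smul_smul, map_mul, aeval_C, map_pow, aeval_X,
      ← Algebra.smul_def]
  -- the values of `Q`
  have hQ : ∀ z : ℂ, aeval z Q = ∑ ζ ∈ Z, aeval (ζ * z) Q₁ := by
    intro z
    have h1 : ∀ ζ : ℂ, aeval (ζ * z) Q₁ = ∑ j ∈ Finset.range (Q₁.natDegree + 1),
        (Q₁.coeff j : ℂ) * z ^ j * ζ ^ j := by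
      intro ζ
      rw [aeval_eq_sum_range]
      refine Finset.sum_congr rfl fun j _ => ?_
      rw [mul_pow, Rat.smul_def]
      ring
    rw [Finset.sum_congr rfl (fun ζ _ => h1 ζ), Finset.sum_comm, hQdef, map_sum]
    refine Finset.sum_congr rfl fun j _ => ?_
    rw [map_mul, aeval_C, map_pow, aeval_X, ← Finset.mul_sum, ← htc j, map_mul]
    simp only [eq_ratCast]
    ring
  have hq1 : aeval (q : ℂ) Q₁ = 1 := by
    have h1 := Polynomial.aeval_algebraMap_apply_eq_algebraMap_eval (A := ℂ) (q : ℚ) Q₁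
    rw [hQ1, map_one, map_natCast] at h1
    exact h1
  refine ⟨Q, fun a ha b hb => ?_, ?_⟩
  · have hzero : ∀ ζ ∈ Z, ζ * (a * b) ≠ (q : ℂ) → aeval (ζ * (a * b)) Q₁ = 0 := by
      intro ζ hζ hne
      have h1 := hOLY C W q D Y hY M hM a ha ζ ((hmem ζ).1 hζ)
      have h2 := hOLY C W q D Y hY M hM b hb 1 (one_pow M)
      rw [one_mul] at h2
      rw [← mul_assoc] at hne ⊢
      exact hQ0 _ h1 _ h2 hne
    have hqne : (q : ℂ) ≠ 0 := by
      have : q ≠ 0 := by omega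
      exact_mod_cast this
    constructor
    · intro h
      have hab : a * b ≠ 0 := by
        intro h0
        rw [h0, zero_pow hM0] at h
        exact pow_ne_zero M hqne h.symm
      have h1 : (q : ℂ) / (a * b) ∈ Z := by
        rw [hmem, div_pow, h, div_self (pow_ne_zero M hqne)]
      rw [hQ, Finset.sum_eq_single_of_mem _ h1]
      · rw [div_mul_cancel₀ _ hab, hq1]
      · intro ζ hζ hne
        refine hzero ζ hζ fun h2 => hne ?_
        rw [← h2, mul_div_cancel_right₀ _ hab]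
    · intro h
      rw [hQ]
      refine Finset.sum_eq_zero fun ζ hζ => hzero ζ hζ fun h2 => h ?_
      rw [← h2, mul_pow ζ, (hmem ζ).1 hζ, one_mul]
  · obtain ⟨e⟩ := D.dualL M hM
    have h1 := hτ2 _ hE
    rw [hτE] at h1
    exact KEM_thru e h1

end

end Pool.Agent.WAF
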