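import Pool.Agent.WAF.PRZ
import Pool.Agent.WAE.Main0
import Pool.Agent.WAV.TSX

/-!
# Assembly of block WAF, first part (MP_cb388a_ag, MP_6c4da4_ag; helper51)
-/

open CategoryTheory MonoidalCategory Limits Polynomial

universe v u

namespace Pool.Agent.WAF

open Pool.Agent.TJ2 Pool.Agent.TJ3 Pool.Agent.WAV Pool.Agent.WAE MotP.GGap

noncomputable section

/-- all groups of Weil-etale motivic cohomology are finitely generated -/
theorem fgP (hPRZ : S_PRZ.{0, u}) (C : Type u) [Category.{0} C] [Preadditive C] [Linear ℚ C]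
    [MonoidalCategory C]
    [SymmetricCategory C] [MonoidalPreadditive C] [MonoidalLinear ℚ C] [RightRigidCategory C]
    [HasFiniteBiproducts C] [IsIdempotentComplete C] (W : MotP.Frobenius C) (q : ℕ)
    (hq : 2 ≤ q) (D : AVT W q) (Λ : ℂ → Prop) (hPar : Par q Λ)
    (hA : ∀ z, Λ z → ‖z‖ ^ 2 = (q : ℝ)) (M : Chow W) (hM : M.q = q) (hL : Lef M D.T)
    (X : M.V) (hX : Gen (D.Gn Λ) (M.h X)) (n : ℕ) : (M.coh X).L n := by
  have hN : M.old.Nil X := by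
    rintro a ⟨ℓ, hℓ, n, ha⟩
    have h1 : MotP.NumTrivial (a : M.h X ⟶ M.h X) := M.old.triv X ℓ hℓ n a ha
    have h2 : (a : M.h X ⟶ M.h X) = 0 :=
      (t_ABE C W (D.Gn Λ) (nty_Z hPRZ W q D Λ hq hPar hA)).2 _ _ _ hX hX h1
    have h3 : a = 0 := h2
    rw [h3]
    exact IsNilpotent.zero
  have hTS : ∀ n, n ≤ (M.old.th X).d → M.old.TS X n := by
    intro n hn
    obtain ⟨ℓ, hℓ⟩ := WE.Fam.exists_ne M.p
    obtain ⟨Q, hQ0, hQ1, hQ2⟩ := hPRZ C W q D Λ hq hPar hA (M.h X) hX n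
    obtain ⟨h1, h2⟩ := t_TSX C W M D.T hL X n hn Q (by rw [hM]; exact hQ0)
      (by rw [hM]; exact hQ1) hQ2 ℓ hℓ
    exact ⟨ℓ, hℓ, h1, h2⟩
  rcases le_or_gt n (M.old.th X).d with h | h
  · exact M.old.L_of_TS t_PR0 t_NPR X hN hTS n h
  · exact t_NGD M.old X n h hN

/-- the generated category is abelian and has no numerically trivial morphisms -/
theorem abP (hPRZ : S_PRZ.{v, u}) (C : Type u) [Category.{v} C] [Preadditive C] [Linear ℚ C]
    [MonoidalCategory C]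
    [SymmetricCategory C] [MonoidalPreadditive C] [MonoidalLinear ℚ C] [RightRigidCategory C]
    [HasFiniteBiproducts C] [IsIdempotentComplete C] (W : MotP.Frobenius C) (q : ℕ)
    (hq : 2 ≤ q) (D : AVT W q) (Λ : ℂ → Prop) (hPar : Par q Λ)
    (hA : ∀ z, Λ z → ‖z‖ ^ 2 = (q : ℝ)) :
    MotP.IsAbelian (GenCat (D.Gn Λ)) ∧
      ∀ (X Y : C) (f : X ⟶ Y), Gen (D.Gn Λ) X → Gen (D.Gn Λ) Y → MotP.NumTrivial f → f = 0 :=
  t_ABE C W (D.Gn Λ) (nty_Z hPRZ W q D Λ hq hPar hA)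

end

end Pool.Agent.WAF
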