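import Pool.Agent.WAF.St
import Pool.Agent.MotP.Base

/-!
# TRF: the trace formula for polynomials in the Frobenius
-/

open CategoryTheory MonoidalCategory BraidedCategory Limits Polynomial

universe w v u

namespace Pool.Agent.WAF

open Pool.Agent.TJ2 Pool.Agent.TJ3 Pool.Agent.WAV Pool.Agent.WAE

noncomputable section

section TRF

theorem TRF_ms {ι : Type*} (s : Multiset ι) (g : ι → ℂ) (Q : ℚ[X]) :
    (s.map (fun x => aeval (g x) Q)).sum =
      ∑ k ∈ Finset.range (Q.natDegree + 1), (Q.coeff k : ℂ) * (s.map (fun x => g x ^ k)).sum := by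
  induction s using Multiset.induction_on with
  | empty => simp
  | cons a s ih =>
    rw [Multiset.map_cons, Multiset.sum_cons, ih, aeval_eq_sum_range, ← Finset.sum_add_distrib]
    refine Finset.sum_congr rfl fun k _ => ?_
    rw [Multiset.map_cons, Multiset.sum_cons, mul_add, Rat.smul_def]

theorem TRF_prod (s t : Multiset ℂ) (k : ℕ) :
    ((s ×ˢ t).map (fun x => (x.1 * x.2) ^ k)).sum =
      (s.map (fun z => z ^ k)).sum * (t.map (fun z => z ^ k)).sum := by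
  induction s using Multiset.induction_on with
  | empty => simp
  | cons a s ih =>
    rw [Multiset.cons_product, Multiset.map_add, Multiset.sum_add, ih, Multiset.map_map,
      Multiset.map_cons, Multiset.sum_cons, add_mul]
    congr 1
    have h : (t.map ((fun x : ℂ × ℂ => (x.1 * x.2) ^ k) ∘ Prod.mk a)) =
        t.map (fun z => a ^ k * z ^ k) := by
      refine Multiset.map_congr rfl fun z _ => ?_
      simp only [Function.comp_apply]
      rw [mul_pow]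
    rw [h, Multiset.sum_map_mul_left]

variable {C : Type u} [Category.{v} C] [Preadditive C] [Linear ℚ C] [MonoidalCategory C]
    [SymmetricCategory C] [MonoidalPreadditive C] [MonoidalLinear ℚ C] [RightRigidCategory C]

/-- the trace as a linear map -/
def TRF_lin (X : C) : End X →ₗ[ℚ] (𝟙_ C ⟶ 𝟙_ C) where
  toFun f := Mot.trace (f : X ⟶ X)
  map_add' f g := MotP.tr_add (C := C) (X := X) f g
  map_smul' r f := MotP.tr_smul (C := C) (X := X) r f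

theorem TRF_aeval (X : C) (F : End X) (Q : ℚ[X]) :
    (Mot.trace ((aeval F Q : End X) : X ⟶ X)) =
      ∑ k ∈ Finset.range (Q.natDegree + 1), Q.coeff k • Mot.trace ((F ^ k : End X) : X ⟶ X) := by
  have h : TRF_lin X (aeval F Q) = ∑ k ∈ Finset.range (Q.natDegree + 1),
      Q.coeff k • TRF_lin X (F ^ k) := by
    rw [aeval_eq_sum_range, map_sum]
    refine Finset.sum_congr rfl fun k _ => ?_
    rw [map_smul]
  exact h

theorem TRF_inj (W : MotP.Frobenius C) {r s : ℚ} (h : r • 𝟙 (𝟙_ C) = s • 𝟙 (𝟙_ C)) : r = s := by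
  have h1 : (r - s) • 𝟙 (𝟙_ C) = 0 := by rw [sub_smul, h, sub_self]
  rcases smul_eq_zero.mp h1 with h2 | h2
  · linarith
  · exact absurd h2 W.unit_ne

theorem TRF_val (W : MotP.Frobenius C) (X : C) (F : End X) (m : ℕ → ℚ)
    (hm : ∀ k, Mot.trace ((F ^ k : End X) : X ⟶ X) = m k • 𝟙 (𝟙_ C)) (Q : ℚ[X]) (r : ℚ)
    (h : Mot.trace ((aeval F Q : End X) : X ⟶ X) = r • 𝟙 (𝟙_ C)) :
    r = ∑ k ∈ Finset.range (Q.natDegree + 1), Q.coeff k * m k := by
  apply TRF_inj W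
  rw [← h, TRF_aeval, Finset.sum_smul]
  refine Finset.sum_congr rfl fun k _ => ?_
  rw [hm, mul_smul]

theorem TRF_tensor (Y Z : C) (f : Y ⟶ Y) (g : Z ⟶ Z) (s t : ℚ)
    (hf : Mot.trace f = s • 𝟙 (𝟙_ C)) (hg : Mot.trace g = t • 𝟙 (𝟙_ C)) :
    Mot.trace (f ⊗ₘ g) = (s * t) • 𝟙 (𝟙_ C) := by
  have h1 : Mot.trace (f ⊗ₘ g) = Mot.trP (Y ⊗ Z) (Y ⊗ Z)ᘁ (f ⊗ₘ g) := rfl
  have h2 : Mot.trP Y Yᘁ f = s • 𝟙 (𝟙_ C) := hf
  rw [h1, Mot.trP_indep (X' := (Y ⊗ Z)ᘁ) (X'' := Zᘁ ⊗ Yᘁ), Mot.trP_tensor f g t hg, h2,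
    smul_smul, mul_comm]

theorem TRF_pow (W : MotP.Frobenius C) (Y Z : C) (k : ℕ) :
    ((Mot.component W.F (Y ⊗ Z) ^ k : End (Y ⊗ Z)) : Y ⊗ Z ⟶ Y ⊗ Z) =
      ((Mot.component W.F Y ^ k : End Y) : Y ⟶ Y) ⊗ₘ ((Mot.component W.F Z ^ k : End Z) : Z ⟶ Z) := by
  rw [MotP.end_pow, MotP.end_pow, MotP.end_pow]
  induction k with
  | zero =>
    show 𝟙 (Y ⊗ Z) = 𝟙 Y ⊗ₘ 𝟙 Z
    simp
  | succ n ih =>
    have h1 : Mot.pw (Mot.component W.F (Y ⊗ Z) : Y ⊗ Z ⟶ Y ⊗ Z) (n + 1) =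
      Mot.pw (Mot.component W.F (Y ⊗ Z) : Y ⊗ Z ⟶ Y ⊗ Z) n ≫ W.F.app (Y ⊗ Z) := rfl
    have h2 : Mot.pw (Mot.component W.F Y : Y ⟶ Y) (n + 1) =
      Mot.pw (Mot.component W.F Y : Y ⟶ Y) n ≫ W.F.app Y := rfl
    have h3 : Mot.pw (Mot.component W.F Z : Z ⟶ Z) (n + 1) =
      Mot.pw (Mot.component W.F Z : Z ⟶ Z) n ≫ W.F.app Z := rfl
    rw [h1, h2, h3, ih, W.F_tensor, MonoidalCategory.tensorHom_comp_tensorHom]

end TRF

theorem t_TRF : S_TRF.{v, u} := by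
  intro C _ _ _ _ _ _ _ _ W Y Z Q r
  have hm : ∀ (X : C) (k : ℕ), ∃ m : ℚ,
      Mot.trace ((Mot.component W.F X ^ k : End X) : X ⟶ X) = m • 𝟙 (𝟙_ C) :=
    fun X k => W.scalar _
  choose m hm using hm
  have hc : ∀ (X : C) (k : ℕ), (m X k : ℂ) =
      ((W.even X).map (fun z => z ^ k)).sum - ((W.odd X).map (fun z => z ^ k)).sum :=
    fun X k => W.trace_formula X k _ (hm X k)
  constructor
  · intro h
    rw [TRF_val W Y _ (m Y) (hm Y) Q r h, TRF_ms (W.even Y) (fun z => z) Q,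
      TRF_ms (W.odd Y) (fun z => z) Q, ← Finset.sum_sub_distrib]
    push_cast
    refine Finset.sum_congr rfl fun k _ => ?_
    rw [hc]
    ring
  · intro hY hZ h
    have hm' : ∀ k, Mot.trace ((Mot.component W.F (Y ⊗ Z) ^ k : End (Y ⊗ Z)) :
        Y ⊗ Z ⟶ Y ⊗ Z) = (m Y k * m Z k) • 𝟙 (𝟙_ C) := by
      intro k
      rw [TRF_pow]
      exact TRF_tensor Y Z _ _ _ _ (hm Y k) (hm Z k)
    rw [TRF_val W (Y ⊗ Z) _ _ hm' Q r h, TRF_ms _ (fun x : ℂ × ℂ => x.1 * x.2) Q]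
    push_cast
    refine Finset.sum_congr rfl fun k _ => ?_
    rw [TRF_prod, hc, hc, hY, hZ]
    simp

end

end Pool.Agent.WAF
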