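import Pool.Agent.WAF.St
import Pool.Agent.WAF.TRF

/-!
# Module WAF_OLY: the eigenvalues of `L N ⊗ Y`
-/

open CategoryTheory MonoidalCategory BraidedCategory Limits Polynomial

universe v u

namespace Pool.Agent.WAF

open Pool.Agent.TJ2 Pool.Agent.WAV Pool.Agent.WAE

noncomputable section

lemma OLY_prod (s t : Multiset ℂ) (n : ℕ) :
    (((s ×ˢ t).map (fun x : ℂ × ℂ => x.1 * x.2)).map (fun z => z ^ n)).sum =
      (s.map (fun z => z ^ n)).sum * (t.map (fun z => z ^ n)).sum := by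
  rw [Multiset.map_map]
  induction s using Multiset.induction_on with
  | empty => simp
  | cons a s ih =>
    rw [Multiset.cons_product, Multiset.map_add, Multiset.sum_add, ih, Multiset.map_cons,
      Multiset.sum_cons, add_mul, Multiset.map_map]
    congr 1
    rw [← Multiset.sum_map_mul_left]
    refine congrArg Multiset.sum (Multiset.map_congr rfl fun x _ => ?_)
    simp only [Function.comp_apply]
    rw [mul_pow]

theorem t_OLY (hMUL : S_MUL) : S_OLY.{v, u} := by
  intro C _ _ _ _ _ _ _ _ W q D Y hY N hN z hz ζ hζ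
  have hE : W.even (D.L N ⊗ Y) = 0 := D.even _ (D.res Y hY N hN)
  have hY0 : W.even Y = 0 := D.even Y hY
  have hL : W.odd (D.L N) = 0 := D.oddL N hN
  have key : W.odd (D.L N ⊗ Y) =
      ((W.even (D.L N) ×ˢ W.odd Y).map (fun x : ℂ × ℂ => x.1 * x.2)) := by
    apply hMUL
    intro n
    obtain ⟨m1, h1⟩ := W.scalar
      (Mot.trace ((Mot.component W.F (D.L N) ^ n : End (D.L N)) : D.L N ⟶ D.L N))
    obtain ⟨m2, h2⟩ := W.scalar (Mot.trace ((Mot.component W.F Y ^ n : End Y) : Y ⟶ Y))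
    have h3 : Mot.trace ((Mot.component W.F (D.L N ⊗ Y) ^ n : End (D.L N ⊗ Y)) :
        D.L N ⊗ Y ⟶ D.L N ⊗ Y) = (m1 * m2) • 𝟙 (𝟙_ C) := by
      rw [TRF_pow]
      exact TRF_tensor _ _ _ _ _ _ h1 h2
    have e1 := W.trace_formula (D.L N) n m1 h1
    have e2 := W.trace_formula Y n m2 h2
    have e3 := W.trace_formula (D.L N ⊗ Y) n (m1 * m2) h3
    rw [hL, Multiset.map_zero, Multiset.sum_zero, sub_zero] at e1
    rw [hY0, Multiset.map_zero, Multiset.sum_zero, zero_sub] at e2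
    rw [hE, Multiset.map_zero, Multiset.sum_zero, zero_sub] at e3
    rw [OLY_prod, ← e1]
    push_cast at e3
    linear_combination e3 - (m1 : ℂ) * e2
  rw [key, Multiset.mem_map]
  refine ⟨(ζ, z), Multiset.mem_product.2 ⟨?_, hz⟩, rfl⟩
  rw [D.evenL N hN, mem_aroots]
  refine ⟨(Polynomial.X_pow_sub_C_ne_zero hN (1 : ℚ)), ?_⟩
  simp [hζ]

end

end Pool.Agent.WAF
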