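import Pool.Agent.WAF.St
import Pool.Agent.TJ2.KEB
import Pool.Agent.WAE.UN1

/-!
# Module WAF_OSM: the eigenvalues of a direct sum
-/

open CategoryTheory MonoidalCategory BraidedCategory Limits Polynomial

universe v u

namespace Pool.Agent.WAF

open Pool.Agent.TJ2 Pool.Agent.WAV Pool.Agent.WAE

noncomputable section

section Cat

variable {C : Type u} [Category.{v} C] [Preadditive C] [Linear ℚ C] [MonoidalCategory C]
  [SymmetricCategory C] [MonoidalPreadditive C] [MonoidalLinear ℚ C] [RightRigidCategory C]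

lemma OSM_add {X : C} (f g : X ⟶ X) : Mot.trace (f + g) = Mot.trace f + Mot.trace g := by
  unfold Mot.trace
  rw [MonoidalPreadditive.add_whiskerRight, Preadditive.add_comp, Preadditive.comp_add]

lemma OSM_retract (W : MotP.Frobenius C) {V Y : C} (i : Y ⟶ V) (p : V ⟶ Y) (h : i ≫ p = 𝟙 Y)
    (n : ℕ) : Mot.trace (UN1_fp W Y n) = Mot.trace ((p ≫ i) ≫ UN1_fp W V n) := by
  have h5 : UN1_fp W Y n = i ≫ (p ≫ UN1_fp W Y n) := by
    rw [← Category.assoc, h, Category.id_comp]
  have h6 : (p ≫ UN1_fp W Y n) ≫ i = (p ≫ i) ≫ UN1_fp W V n := by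
    rw [Category.assoc, UN1_nat, ← Category.assoc]
  rw [h5, KEB_comm, h6]

end Cat

theorem t_OSM (hMUL : S_MUL) : S_OSM.{v, u} := by
  intro C _ _ _ _ _ _ _ _ W Y Z V i p j r hY hZ hV hip hjr hs
  apply hMUL
  intro n
  obtain ⟨y, hy⟩ := W.scalar (Mot.trace (UN1_fp W Y n))
  obtain ⟨z, hz⟩ := W.scalar (Mot.trace (UN1_fp W Z n))
  have hv : Mot.trace (UN1_fp W V n) = (y + z) • 𝟙 (𝟙_ C) := by
    rw [add_smul, ← hy, ← hz, OSM_retract W i p hip, OSM_retract W j r hjr, ← OSM_add,
      ← Preadditive.add_comp, hs, Category.id_comp]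
  have e1 := W.trace_formula Y n y (by rw [UN1_fp_eq]; exact hy)
  have e2 := W.trace_formula Z n z (by rw [UN1_fp_eq]; exact hz)
  have e3 := W.trace_formula V n (y + z) (by rw [UN1_fp_eq]; exact hv)
  rw [hY, Multiset.map_zero, Multiset.sum_zero, zero_sub] at e1
  rw [hZ, Multiset.map_zero, Multiset.sum_zero, zero_sub] at e2
  rw [hV, Multiset.map_zero, Multiset.sum_zero, zero_sub] at e3
  rw [Multiset.map_add, Multiset.sum_add]
  push_cast at e3
  linear_combination e3 - e1 - e2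

end

end Pool.Agent.WAF
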