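import Pool.Agent.WAF.St
import Pool.Agent.TJ2.SING

/-!
# Module PAQ (helper57): from the partner property over `ℂ` to the independence condition
-/

open Polynomial

namespace Pool.Agent.WAF

open Pool.Agent.TJ2 Pool.Agent.TJ3 Pool.Agent.WAV Pool.Agent.WAE

/-- a common exponent -/
theorem PAQ_exp (q : ℕ) (R : Finset ℂ) : ∃ M : ℕ, 1 ≤ M ∧ ∀ a ∈ R, ∀ b ∈ R,
    (∃ M' : ℕ, 1 ≤ M' ∧ (a * b) ^ M' = (q : ℂ) ^ M') → (a * b) ^ M = (q : ℂ) ^ M := by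
  classical
  have h1 : ∀ x : ℂ × ℂ, ∃ M' : ℕ, 1 ≤ M' ∧ ((∃ M' : ℕ, 1 ≤ M' ∧
      (x.1 * x.2) ^ M' = (q : ℂ) ^ M') → (x.1 * x.2) ^ M' = (q : ℂ) ^ M') := by
    intro x
    by_cases h : ∃ M' : ℕ, 1 ≤ M' ∧ (x.1 * x.2) ^ M' = (q : ℂ) ^ M'
    · obtain ⟨M', h2, h3⟩ := h
      exact ⟨M', h2, fun _ => h3⟩
    · exact ⟨1, le_rfl, fun h' => absurd h' h⟩
  choose f hf1 hf2 using h1
  refine ⟨∏ x ∈ R ×ˢ R, f x,
    Nat.succ_le_of_lt (Finset.prod_pos (fun x _ => Nat.lt_of_lt_of_le Nat.zero_lt_one (hf1 x))), ?_⟩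
  intro a ha b hb h
  obtain ⟨c, hc⟩ := Finset.dvd_prod_of_mem f (Finset.mk_mem_product ha hb)
  rw [hc, pow_mul, pow_mul]
  have h2 := hf2 (a, b) h
  simp only at h2
  rw [h2]

/-- embeddings and polynomials -/
theorem PAQ_emb (ι : Qb →+* ℂ) (a : Qb) (Q : ℚ[X]) : aeval (ι a) Q = ι (aeval a Q) := by
  rw [aeval_def, aeval_def, hom_eval₂]
  congr 1
  exact Subsingleton.elim _ _

theorem t_PAQ : S_PAQ := by
  classical
  intro q Λ P hq hPar hΛ hP hPΛ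
  obtain ⟨M, hM, hM2⟩ := PAQ_exp q (P.aroots ℂ).toFinset
  have hmem : ∀ a : ℂ, aeval a P = 0 → a ∈ (P.aroots ℂ).toFinset := by
    intro a ha
    rw [Multiset.mem_toFinset, mem_aroots]
    exact ⟨hP, ha⟩
  refine ⟨M, hM, ?_⟩
  intro Q hQ m α hα N k hN hprod
  obtain ⟨ι⟩ := SING_emb
  have hr : ∀ i, aeval (ι (α i)) P = 0 := by
    intro i
    rw [PAQ_emb, hα i, map_zero]
  have hL : ∀ i, Λ (ι (α i)) := fun i => hPΛ _ (hr i)
  have hn : ∀ i, ‖ι (α i)‖ ^ 2 = (q : ℝ) := fun i => hΛ _ (hL i)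
  have hq0 : (0 : ℝ) < q := by
    have : 0 < q := by omega
    exact_mod_cast this
  have hq1 : (1 : ℝ) < q := by
    have : 1 < q := by omega
    exact_mod_cast this
  -- absolute values
  have e1 : (∏ i, ι (α i)) ^ N = ((q : ℂ) ^ k) ^ N := by
    have h := congrArg ι hprod
    rw [map_pow, map_prod, map_pow, map_zpow₀, map_natCast] at h
    exact h
  have e2 : ‖∏ i, ι (α i)‖ = (q : ℝ) ^ k := by
    have h := congrArg norm e1
    rw [norm_pow, norm_pow, norm_zpow, Complex.norm_natCast] at h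
    exact (pow_left_inj₀ (norm_nonneg _) (zpow_nonneg hq0.le _) (by omega)).1 h
  have e3 : ‖∏ i, ι (α i)‖ ^ 2 = (q : ℝ) ^ (m + 1) := by
    rw [norm_prod, ← Finset.prod_pow, Finset.prod_congr rfl (fun i _ => hn i)]
    simp
  have e4 : (q : ℝ) ^ (2 * k) = (q : ℝ) ^ ((m + 1 : ℕ) : ℤ) := by
    rw [zpow_natCast, ← e3, e2, mul_comm, zpow_mul]
    norm_cast
  have e5 : 2 * k = ((m + 1 : ℕ) : ℤ) := (zpow_right_injective₀ hq0 hq1.ne') e4
  obtain ⟨j, hj⟩ : ∃ j : ℕ, k = j := ⟨k.toNat, by omega⟩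
  have hlen : (List.ofFn (fun j : Fin m => ι (α j.succ))).length + 1 = 2 * j := by
    rw [List.length_ofFn]
    omega
  obtain ⟨y, hy, M', hM', hyM⟩ := hPar (ι (α 0)) (List.ofFn (fun j : Fin m => ι (α j.succ)))
    (hL 0) (by
      intro y hy
      rw [List.mem_ofFn] at hy
      obtain ⟨i, rfl⟩ := hy
      exact hL _) j N hN hlen (by
      rw [List.prod_ofFn, ← Fin.prod_univ_succ (fun i => ι (α i)), e1, hj, zpow_natCast])
  rw [List.mem_ofFn] at hy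
  obtain ⟨i, rfl⟩ := hy
  refine ⟨i, ?_⟩
  have h3 := hM2 _ (hmem _ (hr 0)) _ (hmem _ (hr i.succ)) ⟨M', hM', hyM⟩
  have h4 := hQ _ _ (hr 0) (hr i.succ) h3
  rw [← map_mul, PAQ_emb] at h4
  exact ι.injective (by rw [h4, map_one])

end Pool.Agent.WAF
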