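import Pool.Agent.WAF.St

/-!
# POL: separating polynomials
-/

set_option autoImplicit false

open CategoryTheory MonoidalCategory BraidedCategory Limits Polynomial

namespace Pool.Agent.WAF

namespace POL

/-- The minimal polynomial of an algebraic number different from `q` does not vanish at `q`. -/
theorem eval_ne {b : ℂ} (hb : IsAlgebraic ℚ b) {q : ℚ} (hq : b ≠ (q : ℂ)) :
    (minpoly ℚ b).eval q ≠ 0 := by
  intro h
  have hi : IsIntegral ℚ b := hb.isIntegral
  have h1 : (X - Polynomial.C q) ∣ minpoly ℚ b := Polynomial.dvd_iff_isRoot.mpr h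
  have h2 : Associated (X - Polynomial.C q) (minpoly ℚ b) :=
    (Polynomial.irreducible_X_sub_C q).associated_of_dvd (minpoly.irreducible hi) h1
  have h3 : X - Polynomial.C q = minpoly ℚ b :=
    Polynomial.eq_of_monic_of_associated (Polynomial.monic_X_sub_C q) (minpoly.monic hi) h2
  have h4 := minpoly.aeval ℚ b
  rw [← h3, map_sub, aeval_X, aeval_C, sub_eq_zero] at h4
  exact hq h4

end POL

theorem t_POL : S_POL := by
  classical
  intro q s hs
  obtain ⟨A, hA⟩ : ∃ A : Finset ℂ, A = ((s ×ˢ s).map (fun x : ℂ × ℂ => x.1 * x.2)).toFinset.filter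
    (fun b => b ≠ (q : ℂ)) := ⟨_, rfl⟩
  have hmem : ∀ b ∈ A, IsAlgebraic ℚ b ∧ b ≠ (q : ℂ) := by
    intro b hb
    rw [hA, Finset.mem_filter, Multiset.mem_toFinset, Multiset.mem_map] at hb
    obtain ⟨⟨x, hx, rfl⟩, h2⟩ := hb
    rw [Multiset.mem_product] at hx
    exact ⟨(hs _ hx.1).mul (hs _ hx.2), h2⟩
  obtain ⟨P, hP⟩ : ∃ P : ℚ[X], P = ∏ b ∈ A, minpoly ℚ b := ⟨_, rfl⟩
  have hPq : P.eval (q : ℚ) ≠ 0 := by
    rw [hP, Polynomial.eval_prod, Finset.prod_ne_zero_iff]
    intro b hb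
    refine POL.eval_ne (hmem b hb).1 ?_
    have := (hmem b hb).2
    rwa [Rat.cast_natCast]
  refine ⟨P * Polynomial.C (P.eval (q : ℚ))⁻¹, ?_, ?_⟩
  · rw [Polynomial.eval_mul, Polynomial.eval_C]
    exact mul_inv_cancel₀ hPq
  · intro a ha b hb hab
    have h1 : a * b ∈ A := by
      rw [hA, Finset.mem_filter, Multiset.mem_toFinset, Multiset.mem_map]
      exact ⟨⟨(a, b), Multiset.mem_product.mpr ⟨ha, hb⟩, rfl⟩, hab⟩
    have h2 : aeval (a * b) P = 0 := by
      rw [hP, map_prod]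
      exact Finset.prod_eq_zero h1 (minpoly.aeval ℚ _)
    rw [map_mul, h2, zero_mul]

end Pool.Agent.WAF
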