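import Pool.Agent.WAF.St

/-!
# The trace over one factor (MP_cb388a_ag)
-/

open CategoryTheory MonoidalCategory BraidedCategory Limits

universe v u

namespace Pool.Agent.WAF

open Pool.Agent.TJ2 Pool.Agent.TJ3 Pool.Agent.WAV Pool.Agent.WAE

noncomputable section

namespace PTR

variable {C : Type u} [Category.{v} C] [Preadditive C] [Linear ℚ C] [MonoidalCategory C]
  [SymmetricCategory C] [MonoidalPreadditive C] [MonoidalLinear ℚ C] [RightRigidCategory C]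

/-- the first half of the trace over `L` -/
def src (L G : C) : G ⟶ Lᘁ ⊗ (L ⊗ G) :=
  (λ_ G).inv ≫ η_ L Lᘁ ▷ G ≫ (β_ L Lᘁ).hom ▷ G ≫ (α_ Lᘁ L G).hom

/-- the second half of the trace over `L` -/
def tgt (L G : C) : Lᘁ ⊗ (L ⊗ G) ⟶ G :=
  (α_ Lᘁ L G).inv ≫ ε_ L Lᘁ ▷ G ≫ (λ_ G).hom

/-- the trace over `L` -/
def pt (L G : C) : (L ⊗ G ⟶ L ⊗ G) →ₗ[ℚ] (G ⟶ G) where
  toFun E := src L G ≫ Lᘁ ◁ E ≫ tgt L G
  map_add' E F := by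
    rw [MonoidalPreadditive.whiskerLeft_add, Preadditive.add_comp, Preadditive.comp_add]
  map_smul' c E := by
    rw [MonoidalLinear.whiskerLeft_smul, Linear.smul_comp, Linear.comp_smul]
    rfl

theorem pt_apply (L G : C) (E : L ⊗ G ⟶ L ⊗ G) : pt L G E = src L G ≫ Lᘁ ◁ E ≫ tgt L G := rfl

theorem pt_tensor (L G : C) (f : L ⟶ L) (g : G ⟶ G) :
    pt L G (f ⊗ₘ g) = (λ_ G).inv ≫ Mot.trace f ▷ G ≫ (λ_ G).hom ≫ g := by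
  rw [pt_apply]
  unfold src tgt Mot.trace
  have h1 : (α_ Lᘁ L G).hom ≫ Lᘁ ◁ (f ⊗ₘ g) ≫ (α_ Lᘁ L G).inv =
      (Lᘁ ◁ f) ▷ G ≫ (Lᘁ ⊗ L) ◁ g := by
    rw [MonoidalCategory.tensorHom_def]
    simp
  have h2 : (Lᘁ ⊗ L) ◁ g ≫ ε_ L Lᘁ ▷ G ≫ (λ_ G).hom = ε_ L Lᘁ ▷ G ≫ (λ_ G).hom ≫ g := by
    rw [whisker_exchange_assoc, leftUnitor_naturality]
  have h3 : (β_ L Lᘁ).hom ▷ G ≫ (Lᘁ ◁ f) ▷ G = (f ▷ Lᘁ) ▷ G ≫ (β_ L Lᘁ).hom ▷ G := by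
    rw [← comp_whiskerRight, ← comp_whiskerRight, BraidedCategory.braiding_naturality_left]
  calc ((λ_ G).inv ≫ η_ L Lᘁ ▷ G ≫ (β_ L Lᘁ).hom ▷ G ≫ (α_ Lᘁ L G).hom) ≫
        Lᘁ ◁ (f ⊗ₘ g) ≫ (α_ Lᘁ L G).inv ≫ ε_ L Lᘁ ▷ G ≫ (λ_ G).hom
      = (λ_ G).inv ≫ η_ L Lᘁ ▷ G ≫ (β_ L Lᘁ).hom ▷ G ≫
        ((α_ Lᘁ L G).hom ≫ Lᘁ ◁ (f ⊗ₘ g) ≫ (α_ Lᘁ L G).inv) ≫ ε_ L Lᘁ ▷ G ≫ (λ_ G).hom := by
        simp only [Category.assoc]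
    _ = (λ_ G).inv ≫ η_ L Lᘁ ▷ G ≫ ((β_ L Lᘁ).hom ▷ G ≫ (Lᘁ ◁ f) ▷ G) ≫
        ((Lᘁ ⊗ L) ◁ g ≫ ε_ L Lᘁ ▷ G ≫ (λ_ G).hom) := by
        rw [h1]
        simp only [Category.assoc]
    _ = (λ_ G).inv ≫ (η_ L Lᘁ ≫ f ▷ Lᘁ ≫ (β_ L Lᘁ).hom ≫ ε_ L Lᘁ) ▷ G ≫ (λ_ G).hom ≫ g := by
        rw [h2, h3]
        simp only [Category.assoc, comp_whiskerRight]

end PTR

theorem t_PTR : S_PTR := by
  intro C _ _ _ _ _ _ _ _ L G T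
  refine ⟨PTR.pt L G, fun f g c hf => ?_, fun E hE => ?_⟩
  · rw [PTR.pt_tensor, hf, MonoidalLinear.smul_whiskerRight, Linear.smul_comp, Linear.comp_smul,
      id_whiskerRight, Category.id_comp, Iso.inv_hom_id_assoc]
  · unfold thru at hE
    induction hE using Submodule.span_induction with
    | mem z hz =>
      obtain ⟨r, s, rfl⟩ := hz
      refine Submodule.subset_span ⟨PTR.src L G ≫ Lᘁ ◁ r, Lᘁ ◁ s ≫ PTR.tgt L G, ?_⟩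
      rw [PTR.pt_apply, whiskerLeft_comp]
      simp only [Category.assoc]
    | zero =>
      rw [map_zero]
      exact Submodule.zero_mem _
    | add x y _ _ hx hy =>
      rw [map_add]
      exact Submodule.add_mem _ hx hy
    | smul a x _ hx =>
      rw [map_smul]
      exact Submodule.smul_mem _ a hx

end

end Pool.Agent.WAF
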