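import Pool.Agent.WAF.St
import Pool.Agent.WAV.SSM

/-!
# Module WAF_SSZ: the Frobenius of a word is semisimple at rational eigenvalues
-/

open CategoryTheory MonoidalCategory BraidedCategory Limits Polynomial

universe v u

namespace Pool.Agent.WAF

open Pool.Agent.TJ2 Pool.Agent.WAV

noncomputable section

section Cat

variable {C : Type u} [Category.{v} C] [Preadditive C] [Linear ℚ C] [MonoidalCategory C]
  [SymmetricCategory C] [MonoidalPreadditive C] [MonoidalLinear ℚ C] [RightRigidCategory C]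

theorem SSZ_unit (W : MotP.Frobenius C) (q : ℕ) (hq : 2 ≤ q) (U : C) (hU : Pk W q U) :
    ∃ R : ℚ[X], Squarefree R ∧ aeval (Mot.component W.F U) R = 0 := by
  obtain ⟨N, hN, k, hk⟩ := hU
  have hq0 : (q : ℚ) ≠ 0 := by
    have : q ≠ 0 := by omega
    exact_mod_cast this
  have e0 : aeval (Mot.component W.F U) (X ^ N - Polynomial.C (((q : ℚ) ^ k) ^ N)) = 0 := by
    rw [map_sub, map_pow, aeval_X, aeval_C, hk, Algebra.algebraMap_eq_smul_one, sub_self]
  exact ⟨X ^ N - Polynomial.C (((q : ℚ) ^ k) ^ N),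
    (Polynomial.separable_X_pow_sub_C _ (by exact_mod_cast (by omega : N ≠ 0))
      (pow_ne_zero N (zpow_ne_zero k hq0))).squarefree, e0⟩

theorem SSZ_word (W : MotP.Frobenius C) (q : ℕ) (Y : C) (P : ℚ[X]) (hq : 2 ≤ q)
    (hP : Squarefree P) (hroot : aeval (Mot.component W.F Y) P = 0) (U : C) (hU : Pk W q U) :
    ∀ m : ℕ, ∃ R : ℚ[X], Squarefree R ∧ aeval (Mot.component W.F (Pw Y U m)) R = 0
  | 0 => SSZ_unit W q hq U hU
  | m + 1 => by
    obtain ⟨Q, hQ, hQ0⟩ := SSZ_word W q Y P hq hP hroot U hU m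
    have r1 : aeval (PLZ_right Y (Pw Y U m) (Mot.component W.F Y)) P = 0 := by
      rw [aeval_algHom_apply, hroot, map_zero]
    have r2 : aeval (PLZ_left Y (Pw Y U m) (Mot.component W.F (Pw Y U m))) Q = 0 := by
      rw [aeval_algHom_apply, hQ0, map_zero]
    have hc : Commute (PLZ_right Y (Pw Y U m) (Mot.component W.F Y))
        (PLZ_left Y (Pw Y U m) (Mot.component W.F (Pw Y U m))) :=
      MonoidalCategory.whisker_exchange (W.F.app Y) (W.F.app (Pw Y U m))
    obtain ⟨R, hR, hR0⟩ := SSM_mul _ _ hc _ _ hP hQ r1 r2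
    refine ⟨R, hR, ?_⟩
    have e1 : (Mot.component W.F (Pw Y U (m + 1)) : End (Pw Y U (m + 1))) =
        PLZ_right Y (Pw Y U m) (Mot.component W.F Y) *
        PLZ_left Y (Pw Y U m) (Mot.component W.F (Pw Y U m)) :=
      (W.F_tensor Y (Pw Y U m)).trans (MonoidalCategory.tensorHom_def' _ _)
    rw [e1]
    exact hR0

end Cat

theorem t_SSZ : S_SSZ.{v, u} := by
  intro C _ _ _ _ _ _ _ _ W q Y P hq hP hroot U hU m
  obtain ⟨R, hR, h0⟩ := SSZ_word W q Y P hq hP hroot U hU m
  exact SSM_of W _ R hR h0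

end

end Pool.Agent.WAF
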