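import Pool.Agent.WAF.St
import Pool.Agent.WAE.UN1

/-!
# Module UZ1 (MP_cb388a_ag, helper7): the objects `U`
-/

open CategoryTheory MonoidalCategory BraidedCategory Limits Polynomial

universe v u

namespace Pool.Agent.WAF

open Pool.Agent.TJ2 Pool.Agent.TJ3 Pool.Agent.WAV Pool.Agent.WAE

noncomputable section

namespace UZ1

variable {C : Type u} [Category.{v} C] [Preadditive C] [Linear ℚ C] [MonoidalCategory C]
  [SymmetricCategory C] [MonoidalPreadditive C] [MonoidalLinear ℚ C] [RightRigidCategory C]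

theorem frob_T' (W : MotP.Frobenius C) {q : ℕ} (D : AVT W q) (hq : 2 ≤ q) :
    W.F.app D.T' = (q : ℚ)⁻¹ • 𝟙 D.T' := by
  obtain ⟨i⟩ := D.unitT
  have hq0 : (q : ℚ) ≠ 0 := by
    have : q ≠ 0 := by omega
    exact_mod_cast this
  have h1 : W.F.app (D.T ⊗ D.T') = (1 : ℚ) • 𝟙 (D.T ⊗ D.T') := by
    apply MON_frob_iso W.F i
    rw [W.F_unit, one_smul]
  have h2 : W.F.app (D.T ⊗ D.T') = D.T ◁ ((q : ℚ) • W.F.app D.T') := by
    rw [W.F_tensor, D.frobT, MonoidalCategory.tensorHom_def]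
    simp
  have h3 : D.T ◁ ((q : ℚ) • W.F.app D.T') = D.T ◁ 𝟙 D.T' := by
    rw [← h2, h1, one_smul, whiskerLeft_id]
  have h4 := MON_faithful ((β_ D.T' D.T) ≪≫ i) _ _ h3
  rw [← h4, smul_smul, inv_mul_cancel₀ hq0]
  exact (one_smul ℚ _).symm

/-- the Frobenius of `T ^ a ⊗ T' ^ b` -/
theorem frob_V (W : MotP.Frobenius C) {q : ℕ} (D : AVT W q) (hq : 2 ≤ q)
    (a b : ℕ) : W.F.app (Mot.T D.T a ⊗ Mot.T D.T' b) =
      ((q : ℚ) ^ ((a : ℤ) - b)) • 𝟙 (Mot.T D.T a ⊗ Mot.T D.T' b) := by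
  have hq0 : (q : ℚ) ≠ 0 := by
    have : q ≠ 0 := by omega
    exact_mod_cast this
  have h := MON_frob_tensor W _ _ (MON_frob_T W _ D.frobT a)
    (MON_frob_T W _ (frob_T' W D hq) b)
  rw [h, zpow_sub₀ hq0, zpow_natCast, zpow_natCast, div_eq_mul_inv, inv_pow]

/-- classes in the skeleton -/
theorem sk {W : MotP.Frobenius C} {q : ℕ} (D : AVT W q) (a b : ℕ)
    (X : C) : toSkeleton ((Mot.T D.T a ⊗ Mot.T D.T' b) ⊗ X) =
      toSkeleton D.T ^ a * toSkeleton D.T' ^ b * toSkeleton X := by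
  rw [Skeleton.toSkeleton_tensorObj, Skeleton.toSkeleton_tensorObj, MON_sk_T, MON_sk_T]

/-- a power of the Frobenius of `U` is a power of `q` -/
theorem pow {W : MotP.Frobenius C} {q : ℕ} (D : AVT W q) (hq : 2 ≤ q)
    {U : C} {a b N : ℕ} (hN : 1 ≤ N)
    (i : U ≅ (Mot.T D.T a ⊗ Mot.T D.T' b) ⊗ D.L N) :
    UN1_fp W U N = ((q : ℚ) ^ (((a : ℤ) - b) * N)) • 𝟙 U := by
  have hL : UN1_fp W (D.L N) N = (1 : ℚ) • 𝟙 (D.L N) := by
    rw [← UN1_fp_eq, D.frobL N hN, one_smul]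
    rfl
  have hV : UN1_fp W (Mot.T D.T a ⊗ Mot.T D.T' b) N =
      ((q : ℚ) ^ (((a : ℤ) - b) * N)) • 𝟙 (Mot.T D.T a ⊗ Mot.T D.T' b) := by
    have h1 : UN1_fp W (Mot.T D.T a ⊗ Mot.T D.T' b) 1 =
        ((q : ℚ) ^ ((a : ℤ) - b)) • 𝟙 (Mot.T D.T a ⊗ Mot.T D.T' b) := by
      rw [UN1_one]
      exact frob_V W D hq a b
    have h2 := UN1_mul W _ 1 N _ h1
    rw [Nat.one_mul] at h2
    rw [h2, zpow_mul, zpow_natCast]
  have h2 := UN1_tensor_scalar W N _ _ hV hL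
  rw [mul_one] at h2
  exact UN1_iso W i N _ h2

end UZ1

theorem t_UZ1 : S_UZ1.{v, u} := by
  intro C _ _ _ _ _ _ _ _ W q D hq
  have hT : toSkeleton D.T * toSkeleton D.T' = 1 := by
    rw [← Skeleton.toSkeleton_tensorObj, Skeleton.one_eq]
    exact toSkeleton_eq_toSkeleton_iff.mpr D.unitT
  have hL1 : toSkeleton (D.L 1) = 1 := by
    rw [Skeleton.one_eq]
    exact toSkeleton_eq_toSkeleton_iff.mpr D.oneL
  have hone : toSkeleton (𝟙_ C) = (1 : Skeleton C) := rfl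
  refine ⟨?_, ?_, ?_, ?_, ?_, ?_, ?_⟩
  · rintro U ⟨a, b, N, hN, ⟨i⟩⟩
    refine ⟨N, hN, (a : ℤ) - b, ?_⟩
    rw [UN1_fp_eq, UZ1.pow D hq hN i, zpow_mul, zpow_natCast]
    rfl
  · rintro U ⟨a, b, N, hN, ⟨i⟩⟩ A x hx
    have hx' : x ≫ W.F.app U = x := hx
    have h1 := UZ1.pow D hq hN i
    by_cases hab : a = b
    · subst hab
      have j : Nonempty (U ≅ D.L N) := by
        rw [← toSkeleton_eq_toSkeleton_iff]
        rw [toSkeleton_eq_toSkeleton_iff.mpr ⟨i⟩, UZ1.sk, ← mul_pow, hT,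
          one_pow, one_mul]
      obtain ⟨j⟩ := j
      have hz : (x ≫ j.hom) ≫ W.F.app (D.L N) = x ≫ j.hom := by
        have h2 : j.hom ≫ W.F.app (D.L N) = W.F.app U ≫ j.hom := W.F.naturality j.hom
        rw [Category.assoc, h2, ← Category.assoc, hx']
      obtain ⟨r, s, hrs⟩ := D.sumL N hN
      have hsum : (N : ℚ) • (x ≫ j.hom) = (x ≫ j.hom) ≫ (r ≫ s) := by
        have h3 : (r ≫ s : D.L N ⟶ D.L N) = ∑ k ∈ Finset.range N, UN1_fp W (D.L N) k := by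
          rw [← hrs]
          exact Finset.sum_congr rfl fun k _ => UN1_fp_eq W (D.L N) k
        rw [h3, Preadditive.comp_sum]
        rw [Finset.sum_congr rfl fun k _ => UN1_fix W (x ≫ j.hom) hz k]
        rw [Finset.sum_const, Finset.card_range, Nat.cast_smul_eq_nsmul]
      have hN0 : (N : ℚ) ≠ 0 := by
        have : N ≠ 0 := by omega
        exact_mod_cast this
      have hfin : x = (N : ℚ)⁻¹ • ((x ≫ j.hom ≫ r) ≫ (s ≫ j.inv)) := by
        have h4 : (x ≫ j.hom ≫ r) ≫ (s ≫ j.inv) = (N : ℚ) • x := by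
          have h5 : (x ≫ j.hom ≫ r) ≫ (s ≫ j.inv) = ((x ≫ j.hom) ≫ (r ≫ s)) ≫ j.inv := by
            simp only [Category.assoc]
          rw [h5, ← hsum, Linear.smul_comp, Category.assoc, j.hom_inv_id, Category.comp_id]
        rw [h4, smul_smul, inv_mul_cancel₀ hN0, one_smul]
      rw [hfin]
      exact Submodule.smul_mem _ _ (Submodule.subset_span ⟨_, _, rfl⟩)
    · have hk : ((a : ℤ) - b) * N ≠ 0 := by
        apply mul_ne_zero
        · intro h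
          exact hab (by omega)
        · have : N ≠ 0 := by omega
          exact_mod_cast this
      rw [UN1_zero hq W x hx' N _ hk h1]
      exact Submodule.zero_mem _
  · refine ⟨0, 0, 1, le_rfl, ?_⟩
    rw [← toSkeleton_eq_toSkeleton_iff, UZ1.sk, hL1, hone]
    simp
  · refine ⟨1, 0, 1, le_rfl, ?_⟩
    rw [← toSkeleton_eq_toSkeleton_iff, UZ1.sk, hL1]
    simp
  · refine ⟨0, 1, 1, le_rfl, ?_⟩
    rw [← toSkeleton_eq_toSkeleton_iff, UZ1.sk, hL1]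
    simp
  · intro N hN
    refine ⟨0, 0, N, hN, ?_⟩
    rw [← toSkeleton_eq_toSkeleton_iff, UZ1.sk]
    simp
  · rintro U V ⟨e⟩ ⟨a, b, N, hN, ⟨i⟩⟩
    exact ⟨a, b, N, hN, ⟨e.symm ≪≫ i⟩⟩

end

end Pool.Agent.WAF
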