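import Pool.Agent.WAF.Main0
import Pool.Agent.WAF.Ar
import Pool.Agent.WAF.DN
import Pool.Agent.WAF.ADN
import Pool.Agent.WAF.DUF
import Pool.Agent.WAF.FAZ
import Pool.Agent.WAF.INZ
import Pool.Agent.WAF.KE1
import Pool.Agent.WAF.KEM
import Pool.Agent.WAF.MUL
import Pool.Agent.WAF.OLY
import Pool.Agent.WAF.OSM
import Pool.Agent.WAF.PAQ
import Pool.Agent.WAF.POL
import Pool.Agent.WAF.PTR
import Pool.Agent.WAF.SSZ
import Pool.Agent.WAF.TRF
import Pool.Agent.WAF.UZ1
import Pool.Agent.WAF.UZ2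

/-!
# Assembly of block WAF (MP_cb388a_ag, MP_6c4da4_ag; helper51)
-/

open CategoryTheory MonoidalCategory Limits Polynomial Filter

universe v u

namespace Pool.Agent.WAF

open Pool.Agent.TJ2 Pool.Agent.TJ3 Pool.Agent.TJ4 Pool.Agent.WAV Pool.Agent.WAE MotP.GGap

noncomputable section

theorem inz_all : S_INZ.{v, u} := t_INZ t_UZ1 t_UZ2 (t_OSM t_MUL)

theorem prz_all : S_PRZ.{v, u} :=
  t_PRZ inz_all t_UZ1 t_UZ2 t_FAZ t_SSZ
    (t_KEM t_POL (t_OLY t_MUL) (t_KE1 t_DUF t_TRF) t_PTR t_TRF) t_PAQ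

/-- All groups of Weil-etale motivic cohomology are finitely generated, for eigenvalues with the
partner property. -/
theorem fgZ (C : Type u) [Category.{0} C] [Preadditive C] [Linear ℚ C] [MonoidalCategory C]
    [SymmetricCategory C] [MonoidalPreadditive C] [MonoidalLinear ℚ C] [RightRigidCategory C]
    [HasFiniteBiproducts C] [IsIdempotentComplete C] (W : MotP.Frobenius C) (q : ℕ)
    (hq : 2 ≤ q) (D : AVT W q) (Λ : ℂ → Prop) (hPar : Par q Λ)
    (hA : ∀ z, Λ z → ‖z‖ ^ 2 = (q : ℝ)) (M : Chow W) (hM : M.q = q) (hL : Lef M D.T)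
    (X : M.V) (hX : Gen (D.Gn Λ) (M.h X)) (n : ℕ) : (M.coh X).L n :=
  fgP prz_all C W q hq D Λ hPar hA M hM hL X hX n

/-- The generated category is abelian and has no numerically trivial morphisms, for eigenvalues with
the partner property. -/
theorem abZ (C : Type u) [Category.{v} C] [Preadditive C] [Linear ℚ C] [MonoidalCategory C]
    [SymmetricCategory C] [MonoidalPreadditive C] [MonoidalLinear ℚ C] [RightRigidCategory C]
    [HasFiniteBiproducts C] [IsIdempotentComplete C] (W : MotP.Frobenius C) (q : ℕ)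
    (hq : 2 ≤ q) (D : AVT W q) (Λ : ℂ → Prop) (hPar : Par q Λ)
    (hA : ∀ z, Λ z → ‖z‖ ^ 2 = (q : ℝ)) :
    MotP.IsAbelian (GenCat (D.Gn Λ)) ∧
      ∀ (X Y : C) (f : X ⟶ Y), Gen (D.Gn Λ) X → Gen (D.Gn Λ) Y → MotP.NumTrivial f → f = 0 :=
  abP prz_all C W q hq D Λ hPar hA

/-- the same for the criterion on slope vectors -/
theorem fgC (C : Type u) [Category.{0} C] [Preadditive C] [Linear ℚ C] [MonoidalCategory C]
    [SymmetricCategory C] [MonoidalPreadditive C] [MonoidalLinear ℚ C] [RightRigidCategory C]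
    [HasFiniteBiproducts C] [IsIdempotentComplete C] (W : MotP.Frobenius C) (q : ℕ)
    (v : AbsoluteValue Qb ℝ) (S : Set ℤ[X]) (hq : IsPrimePow q) (hv : Ab q v) (hS : S ⊆ FL q)
    (hC : Cr q v S) (D : AVT W q) (M : Chow W) (hM : M.q = q) (hL : Lef M D.T)
    (X : M.V) (hX : Gen (D.Obj S) (M.h X)) (n : ℕ) : (M.coh X).L n :=
  fgZ C W q hq.two_le D (Adm q S) (par_of_cr hq hv hS hC)
    (fun z hz => norm_adm t_ADN hq.two_le hS z hz) M hM hL X hX n

theorem abC (C : Type u) [Category.{v} C] [Preadditive C] [Linear ℚ C] [MonoidalCategory C]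
    [SymmetricCategory C] [MonoidalPreadditive C] [MonoidalLinear ℚ C] [RightRigidCategory C]
    [HasFiniteBiproducts C] [IsIdempotentComplete C] (W : MotP.Frobenius C) (q : ℕ)
    (v : AbsoluteValue Qb ℝ) (S : Set ℤ[X]) (hq : IsPrimePow q) (hv : Ab q v) (hS : S ⊆ FL q)
    (hC : Cr q v S) (D : AVT W q) :
    MotP.IsAbelian (GenCat (D.Obj S)) ∧
      ∀ (X Y : C) (f : X ⟶ Y), Gen (D.Obj S) X → Gen (D.Obj S) Y → MotP.NumTrivial f → f = 0 :=
  abZ C W q hq.two_le D (Adm q S) (par_of_cr hq hv hS hC)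
    (fun z hz => norm_adm t_ADN hq.two_le hS z hz)

end

end Pool.Agent.WAF
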