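import Pool.Agent.WAF.St
import Pool.Agent.WAE.NTX

/-!
# Module WAF_PRZ: the eigenvalue `q ^ n` of Frobenius on a generated object
-/

open CategoryTheory MonoidalCategory BraidedCategory Limits Polynomial

universe v u

namespace Pool.Agent.WAF

open Pool.Agent.TJ2 Pool.Agent.WAV Pool.Agent.WAE

noncomputable section

section Cat

variable {C : Type u} [Category.{v} C] [Preadditive C] [Linear ℚ C] [MonoidalCategory C]
  [SymmetricCategory C] [MonoidalPreadditive C] [MonoidalLinear ℚ C] [RightRigidCategory C]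

theorem PRZ_frob_T' (W : MotP.Frobenius C) {q : ℕ} (D : AVT W q) (hq : 2 ≤ q) :
    W.F.app D.T' = (q : ℚ)⁻¹ • 𝟙 D.T' := by
  obtain ⟨i⟩ := D.unitT
  have hq0 : (q : ℚ) ≠ 0 := by
    have : q ≠ 0 := by omega
    exact_mod_cast this
  have h1 : W.F.app (D.T ⊗ D.T') = (1 : ℚ) • 𝟙 (D.T ⊗ D.T') := by
    apply MON_frob_iso W.F i
    rw [W.F_unit, one_smul]
  have h2 : W.F.app (D.T ⊗ D.T') = D.T ◁ ((q : ℚ) • W.F.app D.T') := by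
    rw [W.F_tensor, D.frobT, MonoidalCategory.tensorHom_def]
    simp
  have h3 : D.T ◁ ((q : ℚ) • W.F.app D.T') = D.T ◁ 𝟙 D.T' := by
    rw [← h2, h1, one_smul, whiskerLeft_id]
  have h4 := MON_faithful ((β_ D.T' D.T) ≪≫ i) _ _ h3
  rw [← h4, smul_smul, inv_mul_cancel₀ hq0]
  exact (one_smul ℚ _).symm

/-- every word factors through the unit on the invariants of Frobenius, and Frobenius is semisimple -/
theorem PRZ_word (hUZ1 : S_UZ1.{v, u}) (hUZ2 : S_UZ2.{v, u}) (hFAZ : S_FAZ.{v, u})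
    (hSSZ : S_SSZ.{v, u}) (hKEM : S_KEM.{v, u}) (hPAQ : S_PAQ)
    (W : MotP.Frobenius C) (q : ℕ) (D : AVT W q) (Λ : ℂ → Prop) (hq : 2 ≤ q) (hPar : Par q Λ)
    (hN : ∀ z, Λ z → ‖z‖ ^ 2 = (q : ℝ)) (Y U : C) (m : ℕ) (hU : D.UN U)
    (hY : 1 ≤ m → D.Ab Y ∧ ∀ z ∈ W.odd Y, Λ z) : Fac W (Pw Y U m) ∧ Ssm W (Pw Y U m) := by
  obtain ⟨hU1, hU2, -⟩ := hUZ1 C W q D hq
  obtain ⟨-, -, hU3⟩ := hUZ2 C W q D hq
  rcases Nat.eq_zero_or_pos m with rfl | hm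
  · refine ⟨hU2 U hU, ?_⟩
    have h1 : aeval (Mot.component W.F (𝟙_ C)) (X - Polynomial.C (1 : ℚ)) = 0 := by
      rw [map_sub, aeval_X, aeval_C, map_one, sub_eq_zero]
      exact W.F_unit
    exact hSSZ C W q (𝟙_ C) (X - Polynomial.C (1 : ℚ)) hq
      (Polynomial.irreducible_X_sub_C _).squarefree h1 U (hU1 U hU) 0
  · obtain ⟨hYA, hYΛ⟩ := hY hm
    obtain ⟨P, hPs, hP0, hPr⟩ := D.semi Y hYA
    refine ⟨?_, hSSZ C W q Y P hq hPs hP0 U (hU1 U hU) m⟩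
    obtain ⟨M, hM, hMQ⟩ := hPAQ q Λ P hq hPar hN hPs.ne_zero
      (fun z hz => hYΛ z ((hPr z).1 hz))
    obtain ⟨Q, hQ1, hQ2⟩ := hKEM C W q D hq Y hYA M hM
    refine hFAZ C W q Y (D.L M ⊗ D.T) P Q D.UN hq hPs hP0 hQ2 ?_ hU1 hU2
      (fun V hV => hU3 V hV M hM) U hU m
    exact hMQ Q fun a b ha hb hab => (hQ1 a ((hPr a).1 ha) b ((hPr b).1 hb)).1 hab

end Cat

theorem t_PRZ (hINZ : S_INZ.{v, u}) (hUZ1 : S_UZ1.{v, u}) (hUZ2 : S_UZ2.{v, u})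
    (hFAZ : S_FAZ.{v, u}) (hSSZ : S_SSZ.{v, u}) (hKEM : S_KEM.{v, u}) (hPAQ : S_PAQ) :
    S_PRZ.{v, u} := by
  classical
  intro C _ _ _ _ _ _ _ _ W q D Λ hq2 hPar hN Y hY n
  have hq0 : (q : ℚ) ≠ 0 := by
    have : q ≠ 0 := by omega
    exact_mod_cast this
  have hword := PRZ_word hUZ1 hUZ2 hFAZ hSSZ hKEM hPAQ W q D Λ hq2 hPar hN
  have hDom : ∀ Z, Gen (D.Gn Λ) Z → Dom (D.WN Λ) Z := fun Z hZ => hINZ C W q D Λ hq2 Z hZ
  have hFac : ∀ Z, Gen (D.Gn Λ) Z → Fac W Z := by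
    intro Z hZ
    refine Fac_dom W (P := D.WN Λ) ?_ (hDom Z hZ)
    rintro V ⟨Y₁, U, m, hU, hY₁, ⟨i⟩⟩
    exact Fac_iso W i (hword Y₁ U m hU hY₁).1
  have hSsm : Ssm W Y := by
    refine Ssm_dom W (P := D.WN Λ) ?_ (hDom Y hY)
    rintro V ⟨Y₁, U, m, hU, hY₁, ⟨i⟩⟩
    exact Ssm_iso W i (hword Y₁ U m hU hY₁).2
  -- the twisting objects
  obtain ⟨i0⟩ := D.unitT
  have hT'gen : Gen (D.Gn Λ) D.T' := by
    obtain ⟨k⟩ := MON_dual i0 ((β_ D.T' D.T) ≪≫ i0)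
    exact Gen.summand (D.T)ᘁ D.T' k.inv k.hom k.inv_hom_id (Gen.dual _ (Gen.of _ (Or.inl rfl)))
  have hT'n : Gen (D.Gn Λ) (Mot.T D.T' n) := by
    induction n with
    | zero => exact Gen.unit
    | succ n ih => exact Gen.tensor _ _ ih hT'gen
  obtain ⟨j⟩ : Nonempty (Mot.T D.T' n ⊗ Mot.T D.T n ≅ 𝟙_ C) := by
    rw [← toSkeleton_eq_toSkeleton_iff, Skeleton.toSkeleton_tensorObj, MON_sk_T, MON_sk_T,
      ← mul_pow]
    have h1 : toSkeleton D.T' * toSkeleton D.T = 1 := by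
      rw [mul_comm, ← Skeleton.toSkeleton_tensorObj, Skeleton.one_eq]
      exact toSkeleton_eq_toSkeleton_iff.mpr ⟨i0⟩
    rw [h1, one_pow]
    rfl
  have hE' : W.F.app (Mot.T D.T' n) = ((q : ℚ) ^ n)⁻¹ • 𝟙 (Mot.T D.T' n) := by
    rw [← inv_pow]
    exact MON_frob_T W _ (PRZ_frob_T' W D hq2) n
  -- the polynomial
  obtain ⟨⟨P, hP0, hP⟩, hss⟩ := id hSsm
  obtain ⟨Q, hQ1, hQ2⟩ := Polynomial.exists_eq_pow_rootMultiplicity_mul_and_not_dvd P hP0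
    ((q : ℚ) ^ n)
  rw [hQ1] at hP
  have h1 := ssm_mult W hSsm _ Q _ hP
  refine ⟨Q, fun h0 => hQ2 (Polynomial.dvd_iff_isRoot.2 h0), h1, ?_⟩
  refine fac_twist W (Mot.T D.T n) (Mot.T D.T' n) j _ (pow_ne_zero n hq0) hE' Y
    (hFac _ (Gen.tensor _ _ hY hT'n)) Y _ ?_
  rw [sub_mul, map_sub, mul_comm Polynomial.X Q, map_mul, aeval_X, map_mul, aeval_C,
    sub_eq_zero] at h1
  rw [← fr_nat]
  refine Eq.trans (show _ = _ from h1) ?_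
  change (((aeval (Mot.component W.F Y) Q : End Y) : Y ⟶ Y) ≫ ((q : ℚ) ^ n • 𝟙 Y)) = _
  rw [Linear.comp_smul, Category.comp_id]

/-- no numerically trivial sections -/
theorem nty_Z (hPRZ : S_PRZ.{v, u}) {C : Type u} [Category.{v} C] [Preadditive C] [Linear ℚ C]
    [MonoidalCategory C] [SymmetricCategory C] [MonoidalPreadditive C] [MonoidalLinear ℚ C]
    [RightRigidCategory C] (W : MotP.Frobenius C) (q : ℕ) (D : AVT W q) (Λ : ℂ → Prop)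
    (hq : 2 ≤ q) (hPar : Par q Λ) (hN : ∀ z, Λ z → ‖z‖ ^ 2 = (q : ℝ)) (Z : C)
    (hZ : Gen (D.Gn Λ) Z) : NoNt Z := by
  intro f hf
  obtain ⟨Q, hQ0, -, hQ⟩ := hPRZ C W q D Λ hq hPar hN Z hZ 0
  have h1 : f ≫ ((aeval (Mot.component W.F Z) Q : End Z) : Z ⟶ Z) = 0 := NTX_thru f hf _ hQ
  rw [NTX_eval] at h1
  rw [pow_zero] at hQ0
  exact (smul_eq_zero.1 h1).resolve_left hQ0

end

end Pool.Agent.WAF
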