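import Pool.Agent.WAF.Defs
import Pool.Agent.WAE.St
import Pool.Agent.WAE.PRY

/-!
# Statements of the modules of block WAF (MP_cb388a_ag and MP_6c4da4_ag, helper51)

Aim: finite generation of `H_W` (and: abelian, no numerically trivial morphisms) for the tensor
category generated by `T`, all Artin motives and `h¹(A)` of ALL abelian varieties `A` whose Frobenius
eigenvalues have the partner property `Par` (for `Adm q S` this is proved in project TJ4 from a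
criterion on slope vectors; elliptic curves and supersingular ones are always allowed).  This
replaces the structure `AVL` of block WAE (all modules proved) by `AVT`: a class `Ab` of objects, stable
under sums and `L N ⊗ _`, with Tate's theorem `tate`, `num` and finite-dimensionality `kim`.

Module `X`: theorem `t_X : S_X` (or `t_X : S_Y → S_Z → S_X` if the doc string says USES `Y`, `Z`; do not
import the other modules of WAF) in `Pool/Agent/WAF/X.lean`.  All files of `Pool/Agent/TJ2`,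
`Pool/Agent/WAV`, `Pool/Agent/WAE`, `Pool/Agent/MotP` can be imported and adapted.
Notation: `F_Y = Mot.component W.F Y`, `Q (F_Y) = aeval F_Y Q`.
-/

open CategoryTheory MonoidalCategory BraidedCategory Limits Polynomial

universe w v u

namespace Pool.Agent.WAF

open Pool.Agent.TJ2 Pool.Agent.TJ3 Pool.Agent.WAV Pool.Agent.WAE

noncomputable section

/-! ## Algebra -/

/-- MUL. Multisets of complex numbers with the same power sums are equal.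
PROOF. Let `z` be given.  There is `P : ℂ[X]` with `P (z) = 1` and `P (w) = 0` for all `w ≠ z` in `s + t`
(Lagrange).  `∑_n P.coeff n (power sum n)` of `s` is `count z s`, of `t` is `count z t`.  So the counts
are equal. -/
def S_MUL : Prop :=
  ∀ s t : Multiset ℂ, (∀ n : ℕ, (s.map (fun z => z ^ n)).sum = (t.map (fun z => z ^ n)).sum) → s = t

/-- POL. Separating polynomials.
PROOF. `P = ∏ minpoly ℚ b` over the (finite) set of the products `b = a c ≠ q`, `a, c ∈ s`; `P (q) ≠ 0`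
(`minpoly ℚ b` vanishes at the rational number `q` only if it is `X - q`, i.e. `b = q`).
`Q = P / P (q)`. -/
def S_POL : Prop :=
  ∀ (q : ℕ) (s : Multiset ℂ), (∀ z ∈ s, IsAlgebraic ℚ z) → ∃ Q : ℚ[X], Q.eval (q : ℚ) = 1 ∧
    ∀ a ∈ s, ∀ b ∈ s, a * b ≠ (q : ℂ) → aeval (a * b) Q = 0

/-- DUF. Dual families.
PROOF. `D = 0`: nothing to prove.  Else `V` is finite-dimensional.  The image of `V' → Dual V`,
`r ↦ B _ r`, is a subspace whose common kernel is zero, so it is everything; choose a basis `s` of `V`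
and preimages `r` of the dual basis. -/
def S_DUF : Prop :=
  ∀ (V V' : Type w) [AddCommGroup V] [Module ℚ V] [AddCommGroup V'] [Module ℚ V']
    (B : V →ₗ[ℚ] V' →ₗ[ℚ] ℚ), (∀ s, (∀ r, B s r = 0) → s = 0) → ∀ D : ℕ,
    Module.finrank ℚ V = D → ∃ (s : Fin D → V) (r : Fin D → V'), ∀ i j,
      B (s i) (r j) = if i = j then 1 else 0

/-- PAQ. From the partner property over `ℂ` to the independence condition of `S_FAZ`.
PROOF. Let `M` be the product, over the (finitely many) pairs `(a, b)` of complex roots of `P` for which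
there is `M' ≥ 1` with `(a b) ^ M' = q ^ M'`, of one such `M'`.  Let `ι : Qb → ℂ` be an embedding
(`SING_emb` in `TJ2/SING.lean`), `z = ι (α 0)`, `l = List.ofFn (fun j => ι (α j.succ))`.  Absolute values:
`‖∏ ι (α i)‖ ^ 2 = q ^ (m + 1)`, so `q ^ ((m + 1) N) = q ^ (2 k N)`, `m + 1 = 2 k`, `k ≥ 1`; `Par` with `j = k.toNat`
gives `y = ι (α j.succ)` in `l` with `(z y) ^ M' = q ^ M'`, so `(z y) ^ M = q ^ M` and `Q (z y) = 1`; go back
to `Qb` (`ι` is injective, `aeval_algHom_apply`). -/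
def S_PAQ : Prop :=
  ∀ (q : ℕ) (Λ : ℂ → Prop) (P : ℚ[X]), 2 ≤ q → Par q Λ → (∀ z, Λ z → ‖z‖ ^ 2 = (q : ℝ)) → P ≠ 0 →
    (∀ z : ℂ, aeval z P = 0 → Λ z) → ∃ M : ℕ, 1 ≤ M ∧ ∀ Q : ℚ[X],
      (∀ a b : ℂ, aeval a P = 0 → aeval b P = 0 → (a * b) ^ M = (q : ℂ) ^ M →
        aeval (a * b) Q = 1) →
      ∀ (m : ℕ) (α : Fin (m + 1) → Qb), (∀ i, aeval (α i) P = 0) → ∀ (N : ℕ) (k : ℤ), 1 ≤ N →
        (∏ i, α i) ^ N = ((q : Qb) ^ k) ^ N → ∃ j : Fin m, aeval (α 0 * α j.succ) Q = 1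

/-- ADN. Absolute values of admissible numbers.
PROOF. `z ^ (2 N) = q ^ N` gives `‖z‖ ^ 2 = q`.  Or `z ^ N = r ^ N`, `r ≠ 0` a complex root of `weil q h`, i.e.
`r + q / r` is a root of `h` (divide by `r ^ g`), so it is real and `≤ 2 √q` in absolute value
(`h ∈ RW`), so `‖r‖ ^ 2 = q` (compare `TJ2/EMB.lean`, `EMB_real`); `‖z‖ = ‖r‖`. -/
def S_ADN : Prop :=
  ∀ (q : ℕ) (S : Set ℤ[X]), 2 ≤ q → (∀ h ∈ S, h ∈ RW h.natDegree q) → ∀ z : ℂ, Adm q S z →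
    ‖z‖ ^ 2 = (q : ℝ)

/-! ## Traces -/

/-- TRF. The trace formula for polynomials in the Frobenius.
PROOF. Linearity of the trace and `W.trace_formula`, `W.scalar` (`trace (F ^ n) = r n • 𝟙`); for the
second claim `MotP` (`t_tensor` in `MotP/Base.lean`) or directly: `F_(Y ⊗ Z) ^ n = F_Y ^ n ⊗ F_Z ^ n` and
`trace (f ⊗ g) = trace f * trace g` (see `hb1` in `WAE/KEX.lean` and its proof in `t_KEX`). -/
def S_TRF : Prop :=
  ∀ (C : Type u) [Category.{v} C] [Preadditive C] [Linear ℚ C] [MonoidalCategory C]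
    [SymmetricCategory C] [MonoidalPreadditive C] [MonoidalLinear ℚ C] [RightRigidCategory C]
    (W : MotP.Frobenius C) (Y Z : C) (Q : ℚ[X]) (r : ℚ),
    (Mot.trace ((aeval (Mot.component W.F Y) Q : End Y) : Y ⟶ Y) = r • 𝟙 (𝟙_ C) →
      (r : ℂ) = ((W.even Y).map (fun z => aeval z Q)).sum -
        ((W.odd Y).map (fun z => aeval z Q)).sum) ∧
    (W.even Y = 0 → W.even Z = 0 →
      Mot.trace ((aeval (Mot.component W.F (Y ⊗ Z)) Q : End (Y ⊗ Z)) : Y ⊗ Z ⟶ Y ⊗ Z) =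
        r • 𝟙 (𝟙_ C) →
      (r : ℂ) = ((W.odd Y ×ˢ W.odd Z).map (fun x => aeval (x.1 * x.2) Q)).sum)

/-- OLY. The eigenvalues of `L N ⊗ Y`.  USES `MUL`.
PROOF. `t (L N ⊗ Y) n = t (L N) n * t Y n` (`t_tensor` in `MotP/Base.lean`, traces of `F ^ n`), so by
`evenL`, `oddL`, `even`: `- ∑_(z ∈ odd (L N ⊗ Y)) z ^ n = - ∑_(ζ ^ N = 1) ∑_(z ∈ odd Y) (ζ z) ^ n`; MUL. -/
def S_OLY : Prop :=
  ∀ (C : Type u) [Category.{v} C] [Preadditive C] [Linear ℚ C] [MonoidalCategory C]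
    [SymmetricCategory C] [MonoidalPreadditive C] [MonoidalLinear ℚ C] [RightRigidCategory C]
    (W : MotP.Frobenius C) (q : ℕ) (D : AVT W q) (Y : C), D.Ab Y → ∀ N : ℕ, 1 ≤ N →
    ∀ z ∈ W.odd Y, ∀ ζ : ℂ, ζ ^ N = 1 → ζ * z ∈ W.odd (D.L N ⊗ Y)

/-- OSM. The eigenvalues of a direct sum.  USES `MUL`.
PROOF. `t_split` in `MotP/Base.lean` and MUL. -/
def S_OSM : Prop :=
  ∀ (C : Type u) [Category.{v} C] [Preadditive C] [Linear ℚ C] [MonoidalCategory C]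
    [SymmetricCategory C] [MonoidalPreadditive C] [MonoidalLinear ℚ C] [RightRigidCategory C]
    (W : MotP.Frobenius C) (Y Z V : C) (i : Y ⟶ V) (p : V ⟶ Y) (j : Z ⟶ V) (r : V ⟶ Z),
    W.even Y = 0 → W.even Z = 0 → W.even V = 0 → i ≫ p = 𝟙 Y → j ≫ r = 𝟙 Z →
    p ≫ i + r ≫ j = 𝟙 V → W.odd V = W.odd Y + W.odd Z

/-! ## The key identity -/

/-- KE1. The part of `Y ⊗ Y` where Frobenius is `q` is a sum of copies of `T`.  USES `DUF`, `TRF`.
PROOF (adapt `KEX_main` in `WAE/KEX.lean`).  `E = Q (F_(Y ⊗ Y))`, `P` from `semi`.  (1) `E ≫ E = E`: the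
polynomial `H = Q ^ 2 - Q` vanishes at all `a b`, `a`, `b` roots of `P` (over `ℂ`, hence over `Qb`), and
`F_(Y ⊗ Y)` is the product of the commuting operators `F ▷ Y`, `Y ◁ F` (`opL`, `opR`) killed by the
squarefree `P`: `S_IDT` (`TJ2/IDT.lean`, `KEX_idt`) with `N = 0`, `G i j = H.coeff i` for `i = j`, else 0.  (2)
`s ≫ E = s` for `s : T ⟶ Y ⊗ Y`, and `E ≫ r = r` for `r : Y ⊗ Y ⟶ T`: naturality, `F_T = q`, `Q (q) = 1`
(`aeval_nat` in `WAV/PRJ.lean`).  (3) `trace E = D` with `D = nPairs q (odd Y)`: TRF (`Q (a b)` is `1` or `0`).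
(4) Every `T ⟶ T` is a rational multiple of `𝟙 T` (`T ⊗ T' ≅ 𝟙_`, `W.scalar`), `𝟙 T ≠ 0`, and
`trace (𝟙 T) = 𝟙` (as in `t_KEX`).  So `s ≫ r = B s r • 𝟙 T` with a bilinear map `B`; by `num`, `tate` and DUF
there are `s_i`, `r_j` (`i, j : Fin D`) with `s_i ≫ r_j = δ_ij • 𝟙 T`.  (5) `e = ∑ r_k ≫ s_k` is idempotent of
trace `D`, `e ≫ E = e = E ≫ e`, so `E - e` is idempotent of trace `0`, so `E = e` (`kim`). -/
def S_KE1 : Prop :=
  ∀ (C : Type u) [Category.{v} C] [Preadditive C] [Linear ℚ C] [MonoidalCategory C]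
    [SymmetricCategory C] [MonoidalPreadditive C] [MonoidalLinear ℚ C] [RightRigidCategory C]
    (W : MotP.Frobenius C) (q : ℕ) (D : AVT W q), 2 ≤ q → ∀ Y : C, D.Ab Y → ∀ Q : ℚ[X],
    Q.eval (q : ℚ) = 1 →
    (∀ a ∈ W.odd Y, ∀ b ∈ W.odd Y, a * b ≠ (q : ℂ) → aeval (a * b) Q = 0) →
    ((aeval (Mot.component W.F (Y ⊗ Y)) Q : End (Y ⊗ Y)) : Y ⊗ Y ⟶ Y ⊗ Y) ∈
      thru D.T (Y ⊗ Y) (Y ⊗ Y)

/-- PTR. The partial trace over `L`.
PROOF. `τ E = (λ_ G).inv ≫ η_ L Lᘁ ▷ G ≫ (β_ L Lᘁ).hom ▷ G ≫ (α_ Lᘁ L G).hom ≫ Lᘁ ◁ E ≫ (α_ Lᘁ L G).inv ≫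
ε_ L Lᘁ ▷ G ≫ (λ_ G).hom`.  For `E = f ⊗ₘ g`: naturality of the associator and of the braiding, definition
of `Mot.trace`.  For `E = r ≫ s` through `T` it is a composite through `Lᘁ ⊗ T`. -/
def S_PTR : Prop :=
  ∀ (C : Type u) [Category.{v} C] [Preadditive C] [Linear ℚ C] [MonoidalCategory C]
    [SymmetricCategory C] [MonoidalPreadditive C] [MonoidalLinear ℚ C] [RightRigidCategory C]
    (L G T : C), ∃ τ : (L ⊗ G ⟶ L ⊗ G) →ₗ[ℚ] (G ⟶ G),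
    (∀ (f : L ⟶ L) (g : G ⟶ G) (c : ℚ), Mot.trace f = c • 𝟙 (𝟙_ C) → τ (f ⊗ₘ g) = c • g) ∧
    ∀ E ∈ thru T (L ⊗ G) (L ⊗ G), τ E ∈ thru (Lᘁ ⊗ T) G G

/-- KEM. The part of `Y ⊗ Y` where `F ^ M = q ^ M` is a summand of copies of `L M ⊗ T`.  USES `POL`,
`OLY`, `KE1`, `PTR`, `TRF`.
PROOF. `L = D.L M`, `V = L ⊗ Y`, in `Ab` by `res`; its eigenvalues are algebraic (`semi`), `Q₁` from POL for
`odd V`; KE1: `Q₁ (F_(V ⊗ V))` is in `thru T`.  With `r`, `s` of `sumL`: `s ≫ r = M` (the trace of `∑ F_L ^ i` is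
`∑_ζ ∑_i ζ ^ i = M` by `evenL`, and it is the trace of `s ≫ r`), so `𝟙_` is a direct summand of `L`
(`i₀ = s`, `p₀ = r / M`), so `L ⊗ (Y ⊗ Y)` is a direct summand of `V ⊗ V` and by naturality
(`aeval_nat`) `Q₁ (F_(L ⊗ (Y ⊗ Y)))` is in `thru T`.  Apply `τ` of PTR (`G = Y ⊗ Y`): `F_(L ⊗ G) ^ j =
F_L ^ j ⊗ₘ F_G ^ j`, `trace (F_L ^ j) = t_j`, `(t_j : ℂ) = ∑_(ζ ^ M = 1) ζ ^ j`, so
`τ (Q₁ (F_(L ⊗ G))) = Q (F_G)` with `Q = ∑ Q₁.coeff j * t_j * X ^ j`, and it is in `thru (Lᘁ ⊗ T)`, hence in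
`thru (L ⊗ T)` (`dualL`).  For `a, b ∈ odd Y`: `Q (a b) = ∑_ζ Q₁ (ζ a b)`; `ζ a` and `b` are in `odd V` (OLY, `b = 1 b`),
so `Q₁ (ζ a b) = 0` unless `ζ a b = q`, and then it is `1`.  There is such a `ζ` (exactly one, as `a b ≠ 0`;
`X ^ M - 1` has no multiple roots) iff `(a b) ^ M = q ^ M`. -/
def S_KEM : Prop :=
  ∀ (C : Type u) [Category.{v} C] [Preadditive C] [Linear ℚ C] [MonoidalCategory C]
    [SymmetricCategory C] [MonoidalPreadditive C] [MonoidalLinear ℚ C] [RightRigidCategory C]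
    (W : MotP.Frobenius C) (q : ℕ) (D : AVT W q), 2 ≤ q → ∀ Y : C, D.Ab Y → ∀ M : ℕ, 1 ≤ M →
    ∃ Q : ℚ[X], (∀ a ∈ W.odd Y, ∀ b ∈ W.odd Y,
        ((a * b) ^ M = (q : ℂ) ^ M → aeval (a * b) Q = 1) ∧
        ((a * b) ^ M ≠ (q : ℂ) ^ M → aeval (a * b) Q = 0)) ∧
      ((aeval (Mot.component W.F (Y ⊗ Y)) Q : End (Y ⊗ Y)) : Y ⊗ Y ⟶ Y ⊗ Y) ∈
        thru (D.L M ⊗ D.T) (Y ⊗ Y) (Y ⊗ Y)

/-! ## Words -/

/-- FAZ. The induction.
PROOF (adapt `WAE/FAX.lean`, which is the same with words in the `D.M h`).  Strong induction on `m`.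
`m = 0`: `Pw Y U 0 = U`.  `m + 1`: `M = fun _ => Y`, `l = List.replicate (m + 1) 0`; `FAC_alg` (`WAV/FAC.lean`) with
`m + 1` for `m` (the operators `opZ i`, `i ≤ m`, killed by `P`, and last the operator `opU`, killed by
`X ^ N - q ^ (k N)`, which is squarefree), `c = 1`, `J` = all the indices of the other factors `Y`,
`n = Q.natDegree + 1`, `D i j = Q.coeff i` for `i = j`, else `0` (`ev2 n D a b = Q (a b)` for commuting `a`, `b`).
Independence: `∏ α * γ = 1`, `γ ^ N = q ^ (k N)`, so `(∏ α) ^ N = (q ^ (-k)) ^ N`.  `Q (φ_0 φ_j) x` is in `thru 𝟙_`: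
`Q (F_(Y ⊗ Y)) = ∑ r_k ≫ s_k` through `G₀` (`thru` is a span; clear it to such a sum; `Q (F_(Y ⊗ Y)) =
ev2 n D (opL ..) (opR ..)`), `FAC_step` (or its proof) with `Fac W (G₀ ⊗ Pw Y U (m - 1))`, which holds as
`G₀ ⊗ Pw Y U (m - 1) ≅ Pw Y (G₀ ⊗ U) (m - 1)` (`t_WRD`), `Dom PU (G₀ ⊗ U)`, the induction hypothesis
and `Fac_dom` (`WAV/PRJ.lean`; words of a sum of objects: `INW_word`, `INW_map` in `WAE/INW.lean`). -/
def S_FAZ : Prop :=
  ∀ (C : Type u) [Category.{v} C] [Preadditive C] [Linear ℚ C] [MonoidalCategory C]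
    [SymmetricCategory C] [MonoidalPreadditive C] [MonoidalLinear ℚ C] [RightRigidCategory C]
    (W : MotP.Frobenius C) (q : ℕ) (Y G₀ : C) (P Q : ℚ[X]) (PU : C → Prop), 2 ≤ q →
    Squarefree P → aeval (Mot.component W.F Y) P = 0 →
    ((aeval (Mot.component W.F (Y ⊗ Y)) Q : End (Y ⊗ Y)) : Y ⊗ Y ⟶ Y ⊗ Y) ∈
      thru G₀ (Y ⊗ Y) (Y ⊗ Y) →
    (∀ (m : ℕ) (α : Fin (m + 1) → Qb), (∀ i, aeval (α i) P = 0) → ∀ (N : ℕ) (k : ℤ), 1 ≤ N →
      (∏ i, α i) ^ N = ((q : Qb) ^ k) ^ N → ∃ j : Fin m, aeval (α 0 * α j.succ) Q = 1) →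
    (∀ U, PU U → Pk W q U) → (∀ U, PU U → Fac W U) → (∀ U, PU U → Dom PU (G₀ ⊗ U)) →
    ∀ U, PU U → ∀ m : ℕ, Fac W (Pw Y U m)

/-- UZ1. The objects `U` of `UN` (adapt `WAE/UN1.lean`; there is no supersingular factor `y` here). -/
def S_UZ1 : Prop :=
  ∀ (C : Type u) [Category.{v} C] [Preadditive C] [Linear ℚ C] [MonoidalCategory C]
    [SymmetricCategory C] [MonoidalPreadditive C] [MonoidalLinear ℚ C] [RightRigidCategory C]
    (W : MotP.Frobenius C) (q : ℕ) (D : AVT W q), 2 ≤ q →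
    (∀ U, D.UN U → Pk W q U) ∧ (∀ U, D.UN U → Fac W U) ∧ D.UN (𝟙_ C) ∧ D.UN D.T ∧
      D.UN D.T' ∧ (∀ N, 1 ≤ N → D.UN (D.L N)) ∧ ∀ U V, Nonempty (U ≅ V) → D.UN U → D.UN V

/-- UZ2. Products and duals (adapt `WAE/UN2.lean`); the last claim from the first one and `L M ⊗ T` in
`UN`: `Dom UN (L M ⊗ T)`, `Dom` is stable under products (`t_DOX` in `WAE/DOX.lean`). -/
def S_UZ2 : Prop :=
  ∀ (C : Type u) [Category.{v} C] [Preadditive C] [Linear ℚ C] [MonoidalCategory C]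
    [SymmetricCategory C] [MonoidalPreadditive C] [MonoidalLinear ℚ C] [RightRigidCategory C]
    (W : MotP.Frobenius C) (q : ℕ) (D : AVT W q), 2 ≤ q →
    (∀ U V, D.UN U → D.UN V → Dom D.UN (U ⊗ V)) ∧ (∀ U, D.UN U → D.UN Uᘁ) ∧
      ∀ U, D.UN U → ∀ M, 1 ≤ M → Dom D.UN ((D.L M ⊗ D.T) ⊗ U)

/-- INZ. Generated objects are direct summands of finite direct sums of words.  USES `UZ1`, `UZ2`,
`OSM` (adapt `WAE/INW.lean`).
PROOF. `t_DOX` for `P = D.WN Λ`.  Unit, `T`, `L N`: words with `m = 0`.  `Y` in `Ab` with eigenvalues in `Λ`: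
`Pw Y 𝟙_ 1`.  Products: `Pw Y U m ⊗ Pw Z V n`.  If `m = 0` or `n = 0` the result is a word up to `Dom`
(`t_WRD`, UZ2).  Else let `V₀` be the sum of `Y` and `Z` (`sum`; its eigenvalues are in `Λ` by OSM); `Y`, `Z` are
direct summands of `V₀`, so `Pw Y U m` is a direct summand of `Pw V₀ U m`, and
`Pw V₀ U m ⊗ Pw V₀ V n ≅ Pw V₀ (U ⊗ V) (m + n)` (`t_WRD`; `List.replicate_add`), and `U ⊗ V` is in `Dom UN`.
Duals: `(Pw Y U m)ᘁ`: `Yᘁ ≅ Y ⊗ T'` (`pol`, `unitT`), so it is isomorphic to `Pw Y (T' ^ m ⊗ Uᘁ) m`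
(induction on `m`, or classes in the skeleton as in `WAE/INW.lean`). -/
def S_INZ : Prop :=
  ∀ (C : Type u) [Category.{v} C] [Preadditive C] [Linear ℚ C] [MonoidalCategory C]
    [SymmetricCategory C] [MonoidalPreadditive C] [MonoidalLinear ℚ C] [RightRigidCategory C]
    (W : MotP.Frobenius C) (q : ℕ) (D : AVT W q) (Λ : ℂ → Prop), 2 ≤ q →
    ∀ Z, Gen (D.Gn Λ) Z → Dom (D.WN Λ) Z

/-- SSZ. Semisimplicity for words (adapt `WAE/SSX.lean`: `X ^ N - q ^ (k N)` is squarefree and kills `F_U`). -/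
def S_SSZ : Prop :=
  ∀ (C : Type u) [Category.{v} C] [Preadditive C] [Linear ℚ C] [MonoidalCategory C]
    [SymmetricCategory C] [MonoidalPreadditive C] [MonoidalLinear ℚ C] [RightRigidCategory C]
    (W : MotP.Frobenius C) (q : ℕ) (Y : C) (P : ℚ[X]), 2 ≤ q → Squarefree P →
    aeval (Mot.component W.F Y) P = 0 → ∀ U, Pk W q U → ∀ m : ℕ, Ssm W (Pw Y U m)

/-- PRZ. The eigenvalue `q ^ n` of Frobenius on a generated object.  USES `INZ`, `UZ1`, `UZ2`, `FAZ`,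
`SSZ`, `KEM`, `PAQ` (adapt `WAE/PRY.lean`).
PROOF. Words `Pw Y U m` with `m ≥ 1`: `P` from `semi`, `M` from PAQ, `Q` from KEM; FAZ with `G₀ = L M ⊗ T`, `PU = UN`
gives `Fac`, SSZ gives `Ssm`.  `m = 0`: `Pw Y U 0 = U`, UZ1, and SSZ (with `Y = 𝟙_`, `P = X - 1`, `m = 0`). -/
def S_PRZ : Prop :=
  ∀ (C : Type u) [Category.{v} C] [Preadditive C] [Linear ℚ C] [MonoidalCategory C]
    [SymmetricCategory C] [MonoidalPreadditive C] [MonoidalLinear ℚ C] [RightRigidCategory C]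
    (W : MotP.Frobenius C) (q : ℕ) (D : AVT W q) (Λ : ℂ → Prop), 2 ≤ q → Par q Λ →
    (∀ z, Λ z → ‖z‖ ^ 2 = (q : ℝ)) →
    ∀ (Y : C), Gen (D.Gn Λ) Y → ∀ n : ℕ, ∃ Q : ℚ[X], Q.eval ((q : ℚ) ^ n) ≠ 0 ∧
      aeval (Mot.component W.F Y) ((X - Polynomial.C ((q : ℚ) ^ n)) * Q) = 0 ∧
      ((aeval (Mot.component W.F Y) Q : End Y) : Y ⟶ Y) ∈ thru (Mot.T D.T n) Y Y

end

end Pool.Agent.WAF
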