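import Pool.Agent.WAF.St
import Pool.Agent.WAE.UN2

/-!
# Module UZ2 (MP_cb388a_ag): tensor products and duals of the objects of `UN`
-/

open CategoryTheory MonoidalCategory BraidedCategory Limits Polynomial

universe v u

namespace Pool.Agent.WAF

open Pool.Agent.TJ2 Pool.Agent.TJ3 Pool.Agent.WAE

noncomputable section

theorem t_UZ2 : S_UZ2.{v, u} := by
  intro C _ _ _ _ _ _ _ _ W q D hq
  have hT : toSkeleton D.T * toSkeleton D.T' = 1 := by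
    rw [← Skeleton.toSkeleton_tensorObj, Skeleton.one_eq]
    exact toSkeleton_eq_toSkeleton_iff.mpr D.unitT
  obtain ⟨t, ht⟩ : ∃ t : Skeleton C, t = toSkeleton D.T := ⟨_, rfl⟩
  obtain ⟨t', ht'⟩ : ∃ t' : Skeleton C, t' = toSkeleton D.T' := ⟨_, rfl⟩
  have hone : toSkeleton (𝟙_ C) = (1 : Skeleton C) := rfl
  have hX : ∀ (a b : ℕ) (Z : C), toSkeleton ((Mot.T D.T a ⊗ Mot.T D.T' b) ⊗ Z) =
      t ^ a * t' ^ b * toSkeleton Z := by
    intro a b Z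
    rw [Skeleton.toSkeleton_tensorObj, Skeleton.toSkeleton_tensorObj, MON_sk_T, MON_sk_T,
      ht, ht']
  rw [← ht, ← ht'] at hT
  have hbal : ∀ a : ℕ, t ^ a * t' ^ a = 1 := fun a => by rw [← mul_pow, hT, one_pow]
  have first : ∀ U V, D.UN U → D.UN V → Dom D.UN (U ⊗ V) := by
    rintro U V ⟨a, b, N, hN, ⟨i⟩⟩ ⟨a', b', N', hN', ⟨i'⟩⟩
    have e0 : Nonempty ((Mot.T D.T (a + a') ⊗ Mot.T D.T' (b + b')) ⊗
        (D.L N ⊗ D.L N') ≅ U ⊗ V) := by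
      rw [← toSkeleton_eq_toSkeleton_iff]
      have h1 : toSkeleton U = t ^ a * t' ^ b * toSkeleton (D.L N) := by
        rw [toSkeleton_eq_toSkeleton_iff.mpr ⟨i⟩, hX]
      have h2 : toSkeleton V = t ^ a' * t' ^ b' * toSkeleton (D.L N') := by
        rw [toSkeleton_eq_toSkeleton_iff.mpr ⟨i'⟩, hX]
      rw [hX, Skeleton.toSkeleton_tensorObj, Skeleton.toSkeleton_tensorObj, h1, h2, pow_add,
        pow_add]
      exact by ac_rfl
    obtain ⟨e0⟩ := e0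
    have hL := UN2_of (D.tensL N N' hN hN')
    have hP : UN2_Sm (Mot.T D.T (a + a') ⊗ Mot.T D.T' (b + b'))
      (Mot.T D.T (a + a') ⊗ Mot.T D.T' (b + b')) := UN2_iso (Iso.refl _)
    refine UN2_dom (Y := (Mot.T D.T (a + a') ⊗ Mot.T D.T' (b + b')) ⊗ D.L (N * N'))
      ⟨a + a', b + b', N * N', Nat.mul_pos hN hN', ⟨Iso.refl _⟩⟩ ?_
    exact UN2_trans (UN2_tensor hP hL) (UN2_iso e0)
  refine ⟨first, ?_, ?_⟩
  · rintro U ⟨a, b, N, hN, ⟨i⟩⟩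
    obtain ⟨l⟩ := D.dualL N hN
    have hPd : Nonempty ((Mot.T D.T a ⊗ Mot.T D.T' b)ᘁ ≅ Mot.T D.T b ⊗ Mot.T D.T' a) := by
      have h1 : ∀ a b : ℕ, Nonempty ((Mot.T D.T a ⊗ Mot.T D.T' b) ⊗
          (Mot.T D.T b ⊗ Mot.T D.T' a) ≅ 𝟙_ C) := by
        intro a b
        rw [← toSkeleton_eq_toSkeleton_iff, hX, Skeleton.toSkeleton_tensorObj, MON_sk_T,
          MON_sk_T, ← ht, ← ht', hone, ← hbal (a + b), pow_add, pow_add]
        exact by ac_rfl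
      obtain ⟨i1⟩ := h1 a b
      obtain ⟨i2⟩ := h1 b a
      exact MON_dual i1 i2
    obtain ⟨m⟩ := hPd
    obtain ⟨j⟩ := INZ_dualCongr i
    refine ⟨b, a, N, hN, ?_⟩
    rw [← toSkeleton_eq_toSkeleton_iff, toSkeleton_eq_toSkeleton_iff.mpr ⟨j⟩,
      toSkeleton_eq_toSkeleton_iff.mpr ⟨rightDualTensorIso (Mot.T D.T a ⊗ Mot.T D.T' b)
        (D.L N)⟩, Skeleton.toSkeleton_tensorObj, toSkeleton_eq_toSkeleton_iff.mpr ⟨l⟩,
      toSkeleton_eq_toSkeleton_iff.mpr ⟨m⟩, Skeleton.toSkeleton_tensorObj, MON_sk_T,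
      MON_sk_T, hX, ← ht, ← ht']
    exact by ac_rfl
  · intro U hU M hM
    refine first _ _ ⟨1, 0, M, hM, ?_⟩ hU
    rw [← toSkeleton_eq_toSkeleton_iff, hX, Skeleton.toSkeleton_tensorObj, ← ht, pow_one,
      pow_zero, mul_one]
    exact by ac_rfl

end

end Pool.Agent.WAF
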